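import Pool.Agent.Helper44.HD.Cat

namespace Pool.Agent.Helper44.HD

open Set Filter Topology

universe u

section

variable {M : Type u} [MetricSpace M]

/-- Barycentres of finitely supported probability measures. -/
theorem exists_bary (h : IsCN M) [CompleteSpace M] [Nonempty M] {T : Type*} (s : Finset T)
    (w : T → ℝ) (hw : ∀ t ∈ s, 0 ≤ w t) (hsum : ∑ t ∈ s, w t = 1) (f : T → M) :
    ∃ p : M, ∀ z : M, ∑ t ∈ s, w t * dist p (f t) ^ 2 + dist z p ^ 2 ≤
      ∑ t ∈ s, w t * dist z (f t) ^ 2 := by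
  obtain ⟨x0⟩ := ‹Nonempty M›
  obtain ⟨p, -, hp⟩ := exists_min h (C := Set.univ) isClosed_univ ⟨x0, trivial⟩
    (fun _ _ _ _ => trivial) (F := fun z => ∑ t ∈ s, w t * dist z (f t) ^ 2)
    (by fun_prop) 0 (fun z _ => Finset.sum_nonneg fun t ht => by
      have := hw t ht
      positivity) (by
      intro a _ b _
      have e1 : ∑ t ∈ s, w t * dist (mid h a b) (f t) ^ 2 ≤
          ∑ t ∈ s, w t * ((dist a (f t) ^ 2 + dist b (f t) ^ 2) / 2 - dist a b ^ 2 / 4) := by
        refine Finset.sum_le_sum fun t ht => mul_le_mul_of_nonneg_left ?_ (hw t ht)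
        have e := mid_spec h a b (f t)
        rwa [dist_comm (f t), dist_comm (f t) a, dist_comm (f t) b] at e
      have e2 : ∑ t ∈ s, w t * ((dist a (f t) ^ 2 + dist b (f t) ^ 2) / 2 - dist a b ^ 2 / 4) =
          (∑ t ∈ s, w t * dist a (f t) ^ 2 + ∑ t ∈ s, w t * dist b (f t) ^ 2) / 2 -
            (∑ t ∈ s, w t) * (dist a b ^ 2 / 4) := by
        rw [← Finset.sum_add_distrib, Finset.sum_div, Finset.sum_mul, ← Finset.sum_sub_distrib]
        refine Finset.sum_congr rfl fun t _ => ?_
        ring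
      rw [e2, hsum, one_mul] at e1
      exact e1)
  exact ⟨p, fun z => hp z trivial⟩

theorem bary_dist {T : Type*} {s : Finset T} {w w' : T → ℝ} {f : T → M} {p p' : M} {R : ℝ}
    (h1 : ∀ z : M, ∑ t ∈ s, w t * dist p (f t) ^ 2 + dist z p ^ 2 ≤
      ∑ t ∈ s, w t * dist z (f t) ^ 2)
    (h2 : ∀ z : M, ∑ t ∈ s, w' t * dist p' (f t) ^ 2 + dist z p' ^ 2 ≤
      ∑ t ∈ s, w' t * dist z (f t) ^ 2)
    (hR : ∀ t ∈ s, (w t ≠ 0 ∨ w' t ≠ 0) → dist p (f t) ≤ R ∧ dist p' (f t) ≤ R) :
    dist p p' ≤ R * ∑ t ∈ s, |w t - w' t| := by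
  have e1 := h1 p'
  have e2 := h2 p
  rw [dist_comm p' p] at e1
  have e3 : 2 * dist p p' ^ 2 ≤
      ∑ t ∈ s, (w t - w' t) * (dist p' (f t) ^ 2 - dist p (f t) ^ 2) := by
    have e4 : ∑ t ∈ s, (w t - w' t) * (dist p' (f t) ^ 2 - dist p (f t) ^ 2) =
        (∑ t ∈ s, w t * dist p' (f t) ^ 2 - ∑ t ∈ s, w t * dist p (f t) ^ 2) +
        (∑ t ∈ s, w' t * dist p (f t) ^ 2 - ∑ t ∈ s, w' t * dist p' (f t) ^ 2) := by
      rw [← Finset.sum_sub_distrib, ← Finset.sum_sub_distrib, ← Finset.sum_add_distrib]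
      refine Finset.sum_congr rfl fun t _ => ?_
      ring
    rw [e4]
    linarith
  have e5 : ∑ t ∈ s, (w t - w' t) * (dist p' (f t) ^ 2 - dist p (f t) ^ 2) ≤
      ∑ t ∈ s, |w t - w' t| * (2 * R * dist p p') := by
    refine Finset.sum_le_sum fun t ht => ?_
    by_cases hw : w t ≠ 0 ∨ w' t ≠ 0
    · obtain ⟨r1, r2⟩ := hR t ht hw
      have a1 : |dist p' (f t) - dist p (f t)| ≤ dist p p' := by
        rw [abs_le]
        have b1 := dist_triangle p' p (f t)
        have b2 := dist_triangle p p' (f t)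
        rw [dist_comm p' p] at b1
        constructor <;> linarith
      have a2 : |dist p' (f t) ^ 2 - dist p (f t) ^ 2| ≤ 2 * R * dist p p' := by
        have : dist p' (f t) ^ 2 - dist p (f t) ^ 2 =
            (dist p' (f t) - dist p (f t)) * (dist p' (f t) + dist p (f t)) := by ring
        rw [this, abs_mul, abs_of_nonneg (add_nonneg dist_nonneg dist_nonneg)]
        have a3 : dist p' (f t) + dist p (f t) ≤ 2 * R := by linarith
        calc |dist p' (f t) - dist p (f t)| * (dist p' (f t) + dist p (f t))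
            ≤ dist p p' * (2 * R) :=
              mul_le_mul a1 a3 (add_nonneg dist_nonneg dist_nonneg) dist_nonneg
          _ = 2 * R * dist p p' := by ring
      calc (w t - w' t) * (dist p' (f t) ^ 2 - dist p (f t) ^ 2)
          ≤ |(w t - w' t) * (dist p' (f t) ^ 2 - dist p (f t) ^ 2)| := le_abs_self _
        _ = |w t - w' t| * |dist p' (f t) ^ 2 - dist p (f t) ^ 2| := abs_mul _ _
        _ ≤ _ := mul_le_mul_of_nonneg_left a2 (abs_nonneg _)
    · push Not at hw
      rw [hw.1, hw.2]
      simp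
  rw [← Finset.sum_mul] at e5
  rcases eq_or_lt_of_le (dist_nonneg (x := p) (y := p')) with h0 | h0
  · rw [← h0]
    by_cases hall : ∀ t ∈ s, w t = w' t
    · have : ∑ t ∈ s, |w t - w' t| = 0 := Finset.sum_eq_zero fun t ht => by
        rw [hall t ht, sub_self, abs_zero]
      rw [this, mul_zero]
    · push Not at hall
      obtain ⟨t, ht, hne⟩ := hall
      have hRt : 0 ≤ R := by
        have : w t ≠ 0 ∨ w' t ≠ 0 := by
          by_contra hcon
          push Not at hcon
          exact hne (by rw [hcon.1, hcon.2])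
        exact dist_nonneg.trans (hR t ht this).1
      exact mul_nonneg hRt (Finset.sum_nonneg fun t _ => abs_nonneg _)
  · have e6 : dist p p' * (2 * dist p p') ≤
        dist p p' * (2 * (R * ∑ t ∈ s, |w t - w' t|)) := by nlinarith
    have e7 := le_of_mul_le_mul_left e6 h0
    linarith

/-- Extension by a partition of unity at one scale. -/
theorem exists_pou (h : IsCN M) [CompleteSpace M] [Nonempty M] {X : Type*} [MetricSpace X]
    {T : Type*} (a : T → X) (f : T → M) {ρ σ R : ℝ} (hσ : 0 < σ) (D : ℕ)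
    (hfin : ∀ x : X, ∀ s : Finset T, (∀ t ∈ s, dist x (a t) < ρ) → s.card ≤ D)
    (hR : ∀ t t', dist (a t) (a t') < 2 * ρ + σ → dist (f t) (f t') ≤ R) :
    ∃ g : X → M,
      (∀ x x', (∃ t, dist x (a t) ≤ ρ - σ) → (∃ t, dist x' (a t) ≤ ρ - σ) →
        dist x x' ≤ σ → dist (g x) (g x') ≤ 4 * D * R / σ * dist x x') ∧
      (∀ x, (∃ t, dist x (a t) ≤ ρ - σ) → ∀ q r, 0 ≤ r →
        (∀ t, dist x (a t) < ρ → dist q (f t) ≤ r) → dist q (g x) ≤ r) := by
  classical
  have hfinite : ∀ x, {t | dist x (a t) < ρ}.Finite := by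
    intro x
    by_contra hinf
    obtain ⟨s, hs, hcard⟩ := Set.Infinite.exists_subset_card_eq hinf (D + 1)
    have := hfin x s fun t ht => hs ht
    omega
  let S : X → Finset T := fun x => (hfinite x).toFinset
  have hS : ∀ x t, t ∈ S x ↔ dist x (a t) < ρ := by
    intro x t
    simp only [S, Set.Finite.mem_toFinset]
    rfl
  have hScard : ∀ x, (S x).card ≤ D := fun x => hfin x (S x) fun t ht => (hS x t).1 ht
  let ψ : X → T → ℝ := fun x t => max 0 (ρ - dist x (a t))
  have hψ0 : ∀ x t, 0 ≤ ψ x t := fun x t => le_max_left _ _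
  have hψout : ∀ x t, t ∉ S x → ψ x t = 0 := by
    intro x t ht
    rw [hS] at ht
    push Not at ht
    exact max_eq_left (by linarith)
  have hψlip : ∀ x x' t, |ψ x t - ψ x' t| ≤ dist x x' := by
    intro x x' t
    have h1 : |ψ x t - ψ x' t| ≤ |(ρ - dist x (a t)) - (ρ - dist x' (a t))| :=
      abs_max_sub_max_le_abs _ _ _ |> fun hh => by
        simpa only [ψ, max_comm (0 : ℝ)] using hh
    refine h1.trans ?_
    have h2 := dist_triangle x x' (a t)
    have h3 := dist_triangle x' x (a t)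
    rw [dist_comm x' x] at h3
    rw [abs_le]
    constructor <;> linarith
  let Sg : X → ℝ := fun x => ∑ t ∈ S x, ψ x t
  have hSgσ : ∀ x, (∃ t, dist x (a t) ≤ ρ - σ) → σ ≤ Sg x := by
    rintro x ⟨t, ht⟩
    have h1 : t ∈ S x := (hS x t).2 (by linarith)
    have h2 : ψ x t ≤ Sg x := Finset.single_le_sum (fun t _ => hψ0 x t) h1
    have h3 : ρ - dist x (a t) ≤ ψ x t := le_max_right _ _
    linarith
  let w : X → T → ℝ := fun x t => ψ x t / Sg x
  have hsum : ∀ x, (∃ t, dist x (a t) ≤ ρ - σ) → ∑ t ∈ S x, w x t = 1 := by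
    intro x hx
    have := hSgσ x hx
    simp only [w]
    rw [← Finset.sum_div]
    have h0 : 0 < Sg x := by linarith
    exact div_self h0.ne'
  have hw0 : ∀ x, (∃ t, dist x (a t) ≤ ρ - σ) → ∀ t, 0 ≤ w x t := by
    intro x hx t
    have := hSgσ x hx
    exact div_nonneg (hψ0 x t) (by linarith)
  let g : X → M := fun x => if hx : ∃ t, dist x (a t) ≤ ρ - σ then
    (exists_bary h (S x) (w x) (fun t _ => hw0 x hx t) (hsum x hx) f).choose
    else Classical.arbitrary M
  have hg : ∀ x, (∃ t, dist x (a t) ≤ ρ - σ) → ∀ z : M,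
      ∑ t ∈ S x, w x t * dist (g x) (f t) ^ 2 + dist z (g x) ^ 2 ≤
      ∑ t ∈ S x, w x t * dist z (f t) ^ 2 := by
    intro x hx
    simp only [g, dif_pos hx]
    exact (exists_bary h (S x) (w x) (fun t _ => hw0 x hx t) (hsum x hx) f).choose_spec
  have hball : ∀ x, (∃ t, dist x (a t) ≤ ρ - σ) → ∀ q r, 0 ≤ r →
      (∀ t, dist x (a t) < ρ → dist q (f t) ≤ r) → dist q (g x) ≤ r := by
    intro x hx q r hr hq
    have h1 := hg x hx q
    have h2 : 0 ≤ ∑ t ∈ S x, w x t * dist (g x) (f t) ^ 2 :=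
      Finset.sum_nonneg fun t _ => mul_nonneg (hw0 x hx t) (by positivity)
    have h3 : ∑ t ∈ S x, w x t * dist q (f t) ^ 2 ≤ ∑ t ∈ S x, w x t * r ^ 2 :=
      Finset.sum_le_sum fun t ht => mul_le_mul_of_nonneg_left
        (pow_le_pow_left₀ dist_nonneg (hq t ((hS x t).1 ht)) 2) (hw0 x hx t)
    rw [← Finset.sum_mul, hsum x hx, one_mul] at h3
    exact le_of_sq_le_sq (by linarith) hr
  refine ⟨g, ?_, hball⟩
  intro x x' hx hx' hxx
  have hwout : ∀ x t, t ∉ S x → w x t = 0 := by
    intro x t ht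
    simp only [w, hψout x t ht, zero_div]
  -- both variational inequalities over the union
  have hsub : ∀ y s, S y ⊆ s → ∀ F : T → ℝ, ∑ t ∈ S y, w y t * F t = ∑ t ∈ s, w y t * F t := by
    intro y s hs F
    refine Finset.sum_subset hs fun t _ ht => ?_
    rw [hwout y t ht, zero_mul]
  set s := S x ∪ S x' with hs
  have hsx : S x ⊆ s := Finset.subset_union_left
  have hsx' : S x' ⊆ s := Finset.subset_union_right
  have hb := bary_dist (s := s) (w := w x) (w' := w x') (f := f) (p := g x) (p' := g x')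
    (R := R) (by
      intro z
      rw [← hsub x s hsx, ← hsub x s hsx]
      exact hg x hx z) (by
      intro z
      rw [← hsub x' s hsx', ← hsub x' s hsx']
      exact hg x' hx' z) (by
      intro t ht hwt
      have hor : dist x (a t) < ρ ∨ dist x' (a t) < ρ := by
        rcases hwt with h1 | h1
        · left
          by_contra hcon
          exact h1 (hwout x t fun hh => hcon ((hS x t).1 hh))
        · right
          by_contra hcon
          exact h1 (hwout x' t fun hh => hcon ((hS x' t).1 hh))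
      have hR0 : 0 ≤ R := by
        refine dist_nonneg.trans (hR t t ?_)
        rw [dist_self]
        have : 0 < ρ := by
          rcases hor with h1 | h1 <;> exact dist_nonneg.trans_lt h1
        linarith
      constructor
      · rw [dist_comm]
        refine hball x hx (f t) R hR0 fun t' ht' => hR t t' ?_
        rcases hor with h1 | h1
        · have := dist_triangle_left (a t) (a t') x
          linarith
        · have e1 := dist_triangle_left (a t) (a t') x'
          have e2 := dist_triangle_left x' (a t') x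
          linarith
      · rw [dist_comm]
        refine hball x' hx' (f t) R hR0 fun t' ht' => hR t t' ?_
        rcases hor with h1 | h1
        · have e1 := dist_triangle_left (a t) (a t') x
          have e2 := dist_triangle_left x (a t') x'
          rw [dist_comm x' x] at e2
          linarith
        · have := dist_triangle_left (a t) (a t') x'
          linarith)
  refine hb.trans ?_
  have hR0 : 0 ≤ R := by
    obtain ⟨t, ht⟩ := hx
    refine dist_nonneg.trans (hR t t ?_)
    rw [dist_self]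
    have := dist_nonneg (x := x) (y := a t)
    linarith
  have hSgeq : ∀ y, (y = x ∨ y = x') → Sg y = ∑ t ∈ s, ψ y t := by
    intro y hy
    have hsy : S y ⊆ s := by rcases hy with rfl | rfl <;> assumption
    exact Finset.sum_subset hsy fun t _ ht => hψout y t ht
  have hdiff : ∑ t ∈ s, |ψ x t - ψ x' t| ≤ 2 * D * dist x x' := by
    calc ∑ t ∈ s, |ψ x t - ψ x' t| ≤ ∑ _t ∈ s, dist x x' :=
          Finset.sum_le_sum fun t _ => hψlip x x' t
      _ = s.card * dist x x' := by rw [Finset.sum_const, nsmul_eq_mul]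
      _ ≤ 2 * D * dist x x' := by
          refine mul_le_mul_of_nonneg_right ?_ dist_nonneg
          have h1 := Finset.card_union_le (S x) (S x')
          have h2 := hScard x
          have h3 := hScard x'
          have h4 : s.card ≤ 2 * D := by
            rw [hs]
            omega
          exact_mod_cast h4
  have hSgdiff : |Sg x - Sg x'| ≤ 2 * D * dist x x' := by
    rw [hSgeq x (Or.inl rfl), hSgeq x' (Or.inr rfl), ← Finset.sum_sub_distrib]
    exact (Finset.abs_sum_le_sum_abs _ _).trans hdiff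
  have hx1 := hSgσ x hx
  have hx1' := hSgσ x' hx'
  have hp1 : 0 < Sg x := by linarith
  have hp1' : 0 < Sg x' := by linarith
  have hwdiff : ∑ t ∈ s, |w x t - w x' t| ≤ 4 * D / σ * dist x x' := by
    have e1 : ∀ t, |w x t - w x' t| ≤
        |ψ x t - ψ x' t| / Sg x + ψ x' t * (|Sg x - Sg x'| / (Sg x * Sg x')) := by
      intro t
      have e2 : w x t - w x' t = (ψ x t - ψ x' t) / Sg x +
          ψ x' t * ((Sg x' - Sg x) / (Sg x * Sg x')) := by
        simp only [w]
        field_simp
        ring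
      rw [e2]
      refine (abs_add_le _ _).trans (le_of_eq ?_)
      rw [abs_div, abs_of_pos hp1, abs_mul, abs_of_nonneg (hψ0 x' t), abs_div,
        abs_of_pos (mul_pos hp1 hp1'), abs_sub_comm (Sg x') (Sg x)]
    calc ∑ t ∈ s, |w x t - w x' t| ≤ ∑ t ∈ s, (|ψ x t - ψ x' t| / Sg x +
          ψ x' t * (|Sg x - Sg x'| / (Sg x * Sg x'))) := Finset.sum_le_sum fun t _ => e1 t
      _ = (∑ t ∈ s, |ψ x t - ψ x' t|) / Sg x +
          Sg x' * (|Sg x - Sg x'| / (Sg x * Sg x')) := by
          rw [Finset.sum_add_distrib, ← Finset.sum_div, ← Finset.sum_mul,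
            ← hSgeq x' (Or.inr rfl)]
      _ = (∑ t ∈ s, |ψ x t - ψ x' t|) / Sg x + |Sg x - Sg x'| / Sg x := by
          congr 1
          field_simp
      _ ≤ (2 * D * dist x x') / σ + (2 * D * dist x x') / σ := by
          have hnn : (0 : ℝ) ≤ 2 * D * dist x x' := by positivity
          exact add_le_add (div_le_div₀ hnn hdiff hσ hx1) (div_le_div₀ hnn hSgdiff hσ hx1)
      _ = 4 * D / σ * dist x x' := by ring
  calc R * ∑ t ∈ s, |w x t - w x' t| ≤ R * (4 * D / σ * dist x x') :=
        mul_le_mul_of_nonneg_left hwdiff hR0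
    _ = 4 * D * R / σ * dist x x' := by ring

/-- Maximal separated sets. -/
theorem exists_net (Y : Type u) [MetricSpace Y] (r : ℝ) : ∃ P : Set Y,
    (∀ p ∈ P, ∀ q ∈ P, p ≠ q → r ≤ dist p q) ∧ ∀ y, ∃ p ∈ P, dist y p < r ∨ y = p := by
  obtain ⟨P, hP⟩ := zorn_subset {P : Set Y | ∀ p ∈ P, ∀ q ∈ P, p ≠ q → r ≤ dist p q} (by
    intro c hc hchain
    refine ⟨⋃₀ c, ?_, fun s hs => subset_sUnion_of_mem hs⟩
    rintro p ⟨s, hs, hps⟩ q ⟨s', hs', hqs⟩ hpq
    rcases hchain.total hs hs' with hss | hss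
    · exact hc hs' p (hss hps) q hqs hpq
    · exact hc hs p hps q (hss hqs) hpq)
  refine ⟨P, hP.prop, fun y => ?_⟩
  by_contra hcon
  push Not at hcon
  have hins : insert y P ∈ {P : Set Y | ∀ p ∈ P, ∀ q ∈ P, p ≠ q → r ≤ dist p q} := by
    rintro p (rfl | hp) q (rfl | hq) hpq
    · exact absurd rfl hpq
    · exact (hcon q hq).1
    · rw [dist_comm]
      exact (hcon p hp).1
    · exact hP.prop p hp q hq hpq
  have hy : y ∈ P := hP.le_of_ge hins (subset_insert y P) (mem_insert y P)
  exact (hcon y hy).2 rfl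

end

end Pool.Agent.Helper44.HD
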