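import Pool.Agent.Helper44.HD.Cat

namespace Pool.Agent.Helper44.HD

open Set Filter Topology
open scoped NNReal

universe u

section

variable {M : Type u} [MetricSpace M]

theorem bus_ge {γ : ℝ → M} (hγ : IsRay γ) (z : M) (n : ℕ) :
    -dist z (γ 0) ≤ dist z (γ n) - n := by
  have h1 := hγ 0 n le_rfl (Nat.cast_nonneg n)
  rw [zero_sub, abs_neg, abs_of_nonneg (Nat.cast_nonneg n)] at h1
  have h2 := dist_triangle_left (γ 0) (γ n) z
  linarith

theorem bus_bdd {γ : ℝ → M} (hγ : IsRay γ) (z : M) :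
    BddBelow (range fun n : ℕ => dist z (γ n) - n) :=
  ⟨-dist z (γ 0), by rintro _ ⟨n, rfl⟩; exact bus_ge hγ z n⟩

theorem bus_le {γ : ℝ → M} (hγ : IsRay γ) (z : M) (n : ℕ) :
    busemann γ z ≤ dist z (γ n) - n := ciInf_le (bus_bdd hγ z) n

theorem bus_anti {γ : ℝ → M} (hγ : IsRay γ) (z : M) {m n : ℕ} (hmn : m ≤ n) :
    dist z (γ n) - n ≤ dist z (γ m) - m := by
  have h1 := hγ m n (Nat.cast_nonneg m) (Nat.cast_nonneg n)
  have h3 : (m : ℝ) ≤ n := by exact_mod_cast hmn
  rw [abs_of_nonpos (by linarith)] at h1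
  have h2 := dist_triangle z (γ m) (γ n)
  linarith

theorem bus_approx {γ : ℝ → M} (hγ : IsRay γ) (z : M) {ε : ℝ} (hε : 0 < ε) (N : ℕ) :
    ∃ n : ℕ, N ≤ n ∧ dist z (γ n) - n < busemann γ z + ε := by
  obtain ⟨m, hm⟩ := exists_lt_of_ciInf_lt (show (⨅ n : ℕ, (dist z (γ n) - n)) <
    busemann γ z + ε by unfold busemann; linarith)
  exact ⟨max N m, le_max_left _ _, (bus_anti hγ z (le_max_right N m)).trans_lt hm⟩

theorem bus_lip {γ : ℝ → M} (hγ : IsRay γ) (x y : M) :
    busemann γ x ≤ busemann γ y + dist x y := by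
  rw [← sub_le_iff_le_add]
  refine le_ciInf fun n => ?_
  have h1 := bus_le hγ x n
  have h2 := dist_triangle x y (γ n)
  linarith

theorem dist_mid_le (h : IsCN M) (x y z : M) :
    dist z (mid h x y) ≤ (dist z x + dist z y) / 2 := by
  have e := mid_spec h x y z
  refine le_of_sq_le_sq ?_ (by positivity)
  have h1 : |dist z x - dist z y| ≤ dist x y := by
    rw [abs_le]
    have h1 := dist_triangle z x y
    have h2 := dist_triangle z y x
    rw [dist_comm y x] at h2
    constructor <;> linarith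
  have h2 := sq_le_sq.2 (show |dist z x - dist z y| ≤ |dist x y| by
    rwa [abs_of_nonneg (dist_nonneg (x := x) (y := y))])
  nlinarith

theorem bus_mid (h : IsCN M) {γ : ℝ → M} (hγ : IsRay γ) (x y : M) :
    busemann γ (mid h x y) ≤ (busemann γ x + busemann γ y) / 2 := by
  refine le_of_forall_pos_le_add fun ε hε => ?_
  obtain ⟨n, -, hn⟩ := bus_approx hγ x hε 0
  obtain ⟨k, hk, hk2⟩ := bus_approx hγ y hε n
  have h1 := bus_anti hγ x hk
  have h2 := bus_le hγ (mid h x y) k
  have h3 := dist_mid_le h x y (γ k)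
  rw [dist_comm _ (mid h x y), dist_comm _ x, dist_comm _ y] at h3
  linarith

/-- The properties of Busemann functions which are used. -/
structure IsHoro (h : IsCN M) (b : M → ℝ) : Prop where
  lip : ∀ x y, b x ≤ b y + dist x y
  mid : ∀ x y, b (mid h x y) ≤ (b x + b y) / 2
  descent : ∀ (z : M) (r ε : ℝ), 0 ≤ r → 0 < ε → ∃ z', dist z z' ≤ r ∧ b z' ≤ b z - r + ε

theorem isHoro_busemann [CompleteSpace M] (h : IsCN M) {γ : ℝ → M} (hγ : IsRay γ) :
    IsHoro h (busemann γ) where
  lip := bus_lip hγ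
  mid := bus_mid h hγ
  descent := by
    intro z r ε hr hε
    rcases eq_or_lt_of_le hr with rfl | hr0
    · exact ⟨z, by rw [dist_self], by linarith⟩
    obtain ⟨N, hN⟩ := exists_nat_ge (r + dist z (γ 0))
    obtain ⟨n, hn, hn2⟩ := bus_approx hγ z hε N
    have h1 := bus_ge hγ z n
    have h2 : (N : ℝ) ≤ n := by exact_mod_cast hn
    have h3 : r ≤ dist z (γ n) := by linarith
    have h4 : 0 < dist z (γ n) := by linarith
    have h5 : 0 ≤ r / dist z (γ n) := by positivity
    have h6 : r / dist z (γ n) ≤ 1 := by rw [div_le_one h4]; exact h3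
    refine ⟨seg h z (γ n) (r / dist z (γ n)), ?_, ?_⟩
    · have := dist_left_seg h z (γ n) h5 h6
      rwa [div_mul_cancel₀ _ h4.ne'] at this
    · have e := dist_right_seg h z (γ n) h5 h6
      rw [sub_mul, one_mul, div_mul_cancel₀ _ h4.ne', dist_comm (γ n)] at e
      have e2 := bus_le hγ (seg h z (γ n) (r / dist z (γ n))) n
      linarith

theorem IsHoro.continuous {h : IsCN M} {b : M → ℝ} (H : IsHoro h b) : Continuous b := by
  have : LipschitzWith 1 b := by
    refine LipschitzWith.of_le_add fun x y => H.lip x y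
  exact this.continuous

theorem exists_horo_proj [CompleteSpace M] [Nonempty M] {h : IsCN M} {b : M → ℝ}
    (H : IsHoro h b) (β : ℝ) :
    ∃ P : M → M, (∀ z, b (P z) ≤ β) ∧ (∀ z z', dist (P z) (P z') ≤ dist z z') ∧
      (∀ z, β ≤ b z → dist z (P z) ≤ b z - β) ∧
      (∀ z q, β ≤ b z → b q ≤ β → dist z q ≤ b z - β → q = P z) := by
  have hC : IsClosed {z : M | b z ≤ β} := isClosed_le H.continuous continuous_const
  have hne : {z : M | b z ≤ β}.Nonempty := by
    obtain ⟨z⟩ := ‹Nonempty M›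
    obtain ⟨z', -, h2⟩ := H.descent z (max 0 (b z - β + 1)) 1 (le_max_left _ _) one_pos
    refine ⟨z', ?_⟩
    have := le_max_right 0 (b z - β + 1)
    simp only [mem_ofPred_eq]
    linarith
  have hmid : ∀ x ∈ {z : M | b z ≤ β}, ∀ y ∈ {z : M | b z ≤ β}, mid h x y ∈ {z : M | b z ≤ β} := by
    intro x hx y hy
    have := H.mid x y
    simp only [mem_ofPred_eq] at hx hy ⊢
    linarith
  choose P hP hP2 using fun z => exists_proj h hC hne hmid z
  have hle : ∀ z, β ≤ b z → dist z (P z) ≤ b z - β := by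
    intro z hz
    refine le_of_forall_pos_le_add fun ε hε => ?_
    obtain ⟨z', h1, h2⟩ := H.descent z (b z - β + ε) ε (by linarith) hε
    have h3 := hP2 z z' (by simp only [mem_ofPred_eq]; linarith)
    have h4 : dist z (P z) ^ 2 ≤ dist z z' ^ 2 := by
      have := sq_nonneg (dist z' (P z))
      linarith
    exact (le_of_sq_le_sq h4 dist_nonneg).trans h1
  refine ⟨P, hP, fun z z' => dist_proj_le h (hP z) (hP z') (hP2 z) (hP2 z'), hle, ?_⟩
  intro z q hz hq hzq
  have h1 := hP2 z q hq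
  have h2 : b z - β ≤ dist z (P z) := by
    have h3 := H.lip z (P z)
    have h4 : b (P z) ≤ β := hP z
    linarith
  have h3 : dist z q ^ 2 ≤ dist z (P z) ^ 2 :=
    pow_le_pow_left₀ dist_nonneg (hzq.trans h2) 2
  have h4 : dist q (P z) ^ 2 ≤ 0 := by linarith
  have h5 : dist q (P z) = 0 := by
    have := sq_nonneg (dist q (P z))
    exact pow_eq_zero_iff two_ne_zero |>.1 (le_antisymm h4 this)
  exact dist_eq_zero.1 h5

/-- Curves pushed to a horosphere. -/
theorem curve_le [CompleteSpace M] {h : IsCN M} {b : M → ℝ}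
    (H : IsHoro h b) {m : M → M → ℝ}
    (hm : ∀ (K : ℝ≥0) (c : ℝ → M), LipschitzOnWith K c (Icc 0 1) →
      (∀ t ∈ Icc (0 : ℝ) 1, b (c t) = b (c 0)) → m (c 0) (c 1) ≤ K)
    {β : ℝ} {z z' q q' : M} (hq : b q = β) (hq' : b q' = β) (hz : dist z q ≤ b z - β)
    (hz' : dist z' q' ≤ b z' - β) (hzz : dist z z' ≤ (b z - β) + (b z' - β)) :
    m q q' ≤ dist z z' := by
  have : Nonempty M := ⟨z⟩
  obtain ⟨P, hP1, hP2, hP3, hP4⟩ := exists_horo_proj H β
  have hbz : β ≤ b z := by have := dist_nonneg (x := z) (y := q); linarith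
  have hbz' : β ≤ b z' := by have := dist_nonneg (x := z') (y := q'); linarith
  have e0 : P (seg h z z' 0) = q := by
    rw [seg_zero]; exact (hP4 z q hbz hq.le hz).symm
  have e1 : P (seg h z z' 1) = q' := by
    rw [seg_one]; exact (hP4 z' q' hbz' hq'.le hz').symm
  have hlip : LipschitzOnWith (⟨dist z z', dist_nonneg⟩ : ℝ≥0) (fun t => P (seg h z z' t))
      (Icc 0 1) := by
    refine LipschitzOnWith.of_dist_le_mul fun s hs t ht => ?_
    have := (hP2 (seg h z z' s) (seg h z z' t)).trans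
      (dist_seg_seg h z z' hs.1 hs.2 ht.1 ht.2)
    rw [Real.dist_eq, mul_comm]
    exact this
  have hb : ∀ t ∈ Icc (0 : ℝ) 1, b (P (seg h z z' t)) = β := by
    intro t ht
    have h1 := dist_left_seg h z z' ht.1 ht.2
    have h2 := dist_right_seg h z z' ht.1 ht.2
    have h3 := H.lip z (seg h z z' t)
    have h4 := H.lip z' (seg h z z' t)
    have h5 : β ≤ b (seg h z z' t) := by linarith
    have h6 := hP3 _ h5
    have h7 := H.lip (seg h z z' t) (P (seg h z z' t))
    have h8 := hP1 (seg h z z' t)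
    linarith
  have := hm _ _ hlip (fun t ht => by
    rw [hb t ht, hb 0 ⟨le_rfl, zero_le_one⟩])
  simp only [e0, e1] at this
  exact this

end

end Pool.Agent.Helper44.HD
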