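import Mathlib

namespace Pool.Agent.Helper44.HD

open Set
open scoped NNReal

universe u

/-- `Y` is an absolute Lipschitz retract with constant `L`: for every isometric embedding
`ι` of `Y` into a metric space `X` there is an `L`-Lipschitz map `r : X → Y` with
`r (ι y) = y` for all `y`. -/
def AbsLipRetract (L : ℝ≥0) (Y : Type u) [MetricSpace Y] : Prop :=
  ∀ (X : Type u) [MetricSpace X] (ι : Y → X), Isometry ι →
    ∃ r : X → Y, LipschitzWith L r ∧ ∀ y, r (ι y) = y

/-- Coarse version: the Lipschitz map is only required to move the points of `Y` by at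
most `L`. -/
def CoarseLipRetract (L : ℝ≥0) (Y : Type u) [MetricSpace Y] : Prop :=
  ∀ (X : Type u) [MetricSpace X] (ι : Y → X), Isometry ι →
    ∃ r : X → Y, LipschitzWith L r ∧ ∀ y, dist (r (ι y)) y ≤ L

/-- At the scale `r`, sets of diameter at most `6 * r` contain at most `D` points with
pairwise distances at least `r`. -/
def DoublingAt (D : ℕ) (r : ℝ) (Y : Type u) [MetricSpace Y] : Prop :=
  ∀ s : Finset Y, (∀ p ∈ s, ∀ q ∈ s, p ≠ q → r ≤ dist p q) →
    (∀ p ∈ s, ∀ q ∈ s, dist p q ≤ 6 * r) → s.card ≤ D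

end Pool.Agent.Helper44.HD
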