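import Pool.Agent.Helper44.HD.Defs

namespace Pool.Agent.Helper44.HD

open Set Filter Topology

universe u

section

variable {M : Type u} [MetricSpace M]

noncomputable def mid (h : IsCN M) (x y : M) : M := (h x y).choose

theorem mid_spec (h : IsCN M) (x y z : M) :
    dist z (mid h x y) ^ 2 ≤ (dist z x ^ 2 + dist z y ^ 2) / 2 - dist x y ^ 2 / 4 :=
  (h x y).choose_spec z

theorem dist_mid_left (h : IsCN M) (x y : M) : dist x (mid h x y) ≤ dist x y / 2 := by
  have h1 := mid_spec h x y x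
  rw [dist_self] at h1
  have h2 : dist x (mid h x y) ^ 2 ≤ (dist x y / 2) ^ 2 := by nlinarith [h1]
  exact le_of_sq_le_sq h2 (by positivity)

theorem dist_mid_right (h : IsCN M) (x y : M) : dist y (mid h x y) ≤ dist x y / 2 := by
  have h1 := mid_spec h x y y
  rw [dist_self, dist_comm y x] at h1
  have h2 : dist y (mid h x y) ^ 2 ≤ (dist x y / 2) ^ 2 := by nlinarith [h1]
  exact le_of_sq_le_sq h2 (by positivity)

theorem half_le_dist_mid_left (h : IsCN M) (x y : M) : dist x y / 2 ≤ dist x (mid h x y) := by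
  have h1 := dist_mid_right h x y
  have h2 := dist_triangle x (mid h x y) y
  rw [dist_comm (mid h x y) y] at h2
  linarith

/-- Strongly convex functions attain their minimum, with quadratic growth. -/
theorem exists_min (h : IsCN M) [CompleteSpace M] {C : Set M} (hC : IsClosed C)
    (hne : C.Nonempty) (hmid : ∀ x ∈ C, ∀ y ∈ C, mid h x y ∈ C) {F : M → ℝ}
    (hF : Continuous F) (B : ℝ) (hbd : ∀ z ∈ C, B ≤ F z)
    (hconv : ∀ x ∈ C, ∀ y ∈ C, F (mid h x y) ≤ (F x + F y) / 2 - dist x y ^ 2 / 4) :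
    ∃ p ∈ C, ∀ z ∈ C, F p + dist z p ^ 2 ≤ F z := by
  set I : ℝ := sInf (F '' C) with hI
  have hbdd : BddBelow (F '' C) := ⟨B, by rintro _ ⟨z, hz, rfl⟩; exact hbd z hz⟩
  have hIle : ∀ z ∈ C, I ≤ F z := fun z hz => csInf_le hbdd ⟨z, hz, rfl⟩
  have hex : ∀ n : ℕ, ∃ z ∈ C, F z < I + 1 / ((n : ℝ) + 1) := by
    intro n
    have hlt : sInf (F '' C) < I + 1 / ((n : ℝ) + 1) := by
      have : (0 : ℝ) < 1 / ((n : ℝ) + 1) := by positivity
      linarith
    obtain ⟨_, ⟨z, hz, rfl⟩, hz2⟩ := exists_lt_of_csInf_lt (hne.image F) hlt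
    exact ⟨z, hz, hz2⟩
  choose w hwC hwI using hex
  have hcau : CauchySeq w := by
    refine cauchySeq_of_le_tendsto_0 (fun N : ℕ => Real.sqrt (4 * (1 / ((N : ℝ) + 1)))) ?_ ?_
    · intro n m N hn hm
      apply Real.le_sqrt_of_sq_le
      have h1 := hconv _ (hwC n) _ (hwC m)
      have h2 := hIle _ (hmid _ (hwC n) _ (hwC m))
      have hn1 : 1 / ((n : ℝ) + 1) ≤ 1 / ((N : ℝ) + 1) :=
        one_div_le_one_div_of_le (by positivity) (by exact_mod_cast Nat.succ_le_succ hn)
      have hm1 : 1 / ((m : ℝ) + 1) ≤ 1 / ((N : ℝ) + 1) :=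
        one_div_le_one_div_of_le (by positivity) (by exact_mod_cast Nat.succ_le_succ hm)
      have h3 := (hwI n).le
      have h4 := (hwI m).le
      linarith
    · have h1 : Tendsto (fun N : ℕ => 4 * (1 / ((N : ℝ) + 1))) atTop (𝓝 (4 * 0)) :=
        tendsto_one_div_add_atTop_nhds_zero_nat.const_mul 4
      have h2 := (Real.continuous_sqrt.tendsto _).comp h1
      rw [mul_zero, Real.sqrt_zero] at h2
      exact h2
  obtain ⟨p, hp⟩ := cauchySeq_tendsto_of_complete hcau
  have hpC : p ∈ C := hC.mem_of_tendsto hp (Eventually.of_forall hwC)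
  have hpI : F p ≤ I := by
    have h1 : Tendsto (fun n => F (w n)) atTop (𝓝 (F p)) := (hF.tendsto p).comp hp
    have h2 : Tendsto (fun N : ℕ => I + 1 / ((N : ℝ) + 1)) atTop (𝓝 (I + 0)) :=
      tendsto_const_nhds.add tendsto_one_div_add_atTop_nhds_zero_nat
    rw [add_zero] at h2
    exact le_of_tendsto_of_tendsto' h1 h2 fun n => (hwI n).le
  refine ⟨p, hpC, ?_⟩
  have key : ∀ n : ℕ, ∀ z ∈ C, F p + (1 - (1 / 2 : ℝ) ^ n) * dist z p ^ 2 ≤ F z := by
    intro n
    induction n with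
    | zero =>
      intro z hz
      have := hIle z hz
      simp only [pow_zero, sub_self, zero_mul, add_zero]
      linarith
    | succ n ih =>
      intro z hz
      have h1 := ih _ (hmid _ hpC _ hz)
      have h2 := hconv _ hpC _ hz
      have h3 := half_le_dist_mid_left h p z
      have h4 : (dist z p / 2) ^ 2 ≤ dist (mid h p z) p ^ 2 := by
        rw [dist_comm z p, dist_comm (mid h p z) p]
        exact pow_le_pow_left₀ (by positivity) h3 2
      have h5 : (0 : ℝ) ≤ 1 - (1 / 2 : ℝ) ^ n := by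
        have : (1 / 2 : ℝ) ^ n ≤ 1 := pow_le_one₀ (by norm_num) (by norm_num)
        linarith
      have h6 := mul_le_mul_of_nonneg_left h4 h5
      have h7 : (1 / 2 : ℝ) ^ (n + 1) = (1 / 2 : ℝ) ^ n * (1 / 2) := pow_succ _ _
      rw [dist_comm p z] at h2
      rw [h7]
      nlinarith [h1, h2, h6]
  intro z hz
  have h1 : Tendsto (fun n : ℕ => F p + (1 - (1 / 2 : ℝ) ^ n) * dist z p ^ 2) atTop
      (𝓝 (F p + (1 - 0) * dist z p ^ 2)) := by
    have h0 : Tendsto (fun n : ℕ => (1 / 2 : ℝ) ^ n) atTop (𝓝 0) :=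
      tendsto_pow_atTop_nhds_zero_of_lt_one (by norm_num) (by norm_num)
    exact ((h0.const_sub 1).mul_const _).const_add _
  rw [sub_zero, one_mul] at h1
  exact le_of_tendsto' h1 fun n => key n z hz

theorem exists_seg (h : IsCN M) [CompleteSpace M] (x y : M) (t : ℝ) (h0 : 0 ≤ t) (h1 : t ≤ 1) :
    ∃ p : M, ∀ z : M, dist z p ^ 2 ≤
      (1 - t) * dist z x ^ 2 + t * dist z y ^ 2 - t * (1 - t) * dist x y ^ 2 := by
  obtain ⟨p, -, hp⟩ := exists_min h (C := Set.univ) isClosed_univ ⟨x, trivial⟩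
    (fun _ _ _ _ => trivial) (F := fun z => (1 - t) * dist z x ^ 2 + t * dist z y ^ 2)
    (by fun_prop) 0 (fun z _ => by
      have : 0 ≤ 1 - t := by linarith
      positivity) (by
      intro a _ b _
      have e1 := mid_spec h a b x
      have e2 := mid_spec h a b y
      rw [dist_comm x, dist_comm x a, dist_comm x b] at e1
      rw [dist_comm y, dist_comm y a, dist_comm y b] at e2
      have f1 := mul_le_mul_of_nonneg_left e1 (show (0 : ℝ) ≤ 1 - t by linarith)
      have f2 := mul_le_mul_of_nonneg_left e2 h0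
      linarith)
  refine ⟨p, fun z => ?_⟩
  have h2 := hp z trivial
  have h3 : t * (1 - t) * dist x y ^ 2 ≤ (1 - t) * dist p x ^ 2 + t * dist p y ^ 2 := by
    have h4 : dist x y ≤ dist p x + dist p y := dist_triangle_left x y p
    have h5 : dist x y ^ 2 ≤ (dist p x + dist p y) ^ 2 := pow_le_pow_left₀ dist_nonneg h4 2
    have h6 : 0 ≤ t * (1 - t) := mul_nonneg h0 (by linarith)
    have h7 := mul_le_mul_of_nonneg_left h5 h6
    nlinarith [sq_nonneg ((1 - t) * dist p x - t * dist p y)]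
  linarith

/-- The point at parameter `t` of the geodesic segment from `x` to `y`. -/
noncomputable def seg (h : IsCN M) [CompleteSpace M] (x y : M) (t : ℝ) : M :=
  if ht : 0 ≤ t ∧ t ≤ 1 then (exists_seg h x y t ht.1 ht.2).choose else x

theorem seg_spec (h : IsCN M) [CompleteSpace M] (x y : M) {t : ℝ} (h0 : 0 ≤ t) (h1 : t ≤ 1)
    (z : M) : dist z (seg h x y t) ^ 2 ≤
      (1 - t) * dist z x ^ 2 + t * dist z y ^ 2 - t * (1 - t) * dist x y ^ 2 := by
  unfold seg
  rw [dif_pos ⟨h0, h1⟩]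
  exact (exists_seg h x y t h0 h1).choose_spec z

theorem dist_left_seg (h : IsCN M) [CompleteSpace M] (x y : M) {t : ℝ} (h0 : 0 ≤ t)
    (h1 : t ≤ 1) : dist x (seg h x y t) ≤ t * dist x y := by
  have e := seg_spec h x y h0 h1 x
  rw [dist_self] at e
  refine le_of_sq_le_sq ?_ (by positivity)
  nlinarith [e]

theorem dist_right_seg (h : IsCN M) [CompleteSpace M] (x y : M) {t : ℝ} (h0 : 0 ≤ t)
    (h1 : t ≤ 1) : dist y (seg h x y t) ≤ (1 - t) * dist x y := by
  have e := seg_spec h x y h0 h1 y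
  rw [dist_self, dist_comm y x] at e
  have h2 : 0 ≤ 1 - t := by linarith
  refine le_of_sq_le_sq ?_ (by positivity)
  nlinarith [e]

theorem dist_seg_seg (h : IsCN M) [CompleteSpace M] (x y : M) {s t : ℝ} (hs0 : 0 ≤ s)
    (hs1 : s ≤ 1) (h0 : 0 ≤ t) (h1 : t ≤ 1) :
    dist (seg h x y s) (seg h x y t) ≤ |s - t| * dist x y := by
  have e := seg_spec h x y h0 h1 (seg h x y s)
  have e1 := dist_left_seg h x y hs0 hs1
  have e2 := dist_right_seg h x y hs0 hs1
  rw [dist_comm] at e1 e2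
  have f1 := pow_le_pow_left₀ dist_nonneg e1 2
  have f2 := pow_le_pow_left₀ dist_nonneg e2 2
  have g1 := mul_le_mul_of_nonneg_left f1 (show (0 : ℝ) ≤ 1 - t by linarith)
  have g2 := mul_le_mul_of_nonneg_left f2 h0
  refine le_of_sq_le_sq ?_ (by positivity)
  rw [mul_pow, sq_abs]
  nlinarith [e, g1, g2]

theorem eq_seg (h : IsCN M) [CompleteSpace M] (x y p : M) {t : ℝ} (h0 : 0 ≤ t)
    (h1 : t ≤ 1) (hx : dist x p ≤ t * dist x y) (hy : dist y p ≤ (1 - t) * dist x y) :
    p = seg h x y t := by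
  have e := seg_spec h x y h0 h1 p
  rw [dist_comm] at hx hy
  have f1 := pow_le_pow_left₀ dist_nonneg hx 2
  have f2 := pow_le_pow_left₀ dist_nonneg hy 2
  have g1 := mul_le_mul_of_nonneg_left f1 (show (0 : ℝ) ≤ 1 - t by linarith)
  have g2 := mul_le_mul_of_nonneg_left f2 h0
  have h2 : dist p (seg h x y t) ^ 2 ≤ 0 := by nlinarith [e, g1, g2]
  have h3 : dist p (seg h x y t) = 0 := by
    have := sq_nonneg (dist p (seg h x y t))
    exact pow_eq_zero_iff two_ne_zero |>.1 (le_antisymm h2 this)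
  exact dist_eq_zero.1 h3

theorem seg_zero (h : IsCN M) [CompleteSpace M] (x y : M) : seg h x y 0 = x := by
  have := dist_left_seg h x y (le_refl (0 : ℝ)) zero_le_one
  rw [zero_mul] at this
  exact (dist_le_zero.1 this).symm

theorem seg_one (h : IsCN M) [CompleteSpace M] (x y : M) : seg h x y 1 = y := by
  have := dist_right_seg h x y (zero_le_one) (le_refl (1 : ℝ))
  rw [sub_self, zero_mul] at this
  exact (dist_le_zero.1 this).symm

theorem seg_self (h : IsCN M) [CompleteSpace M] (x : M) {t : ℝ} (h0 : 0 ≤ t) (h1 : t ≤ 1) :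
    seg h x x t = x := by
  have := dist_left_seg h x x h0 h1
  rw [dist_self, mul_zero] at this
  exact (dist_le_zero.1 this).symm

theorem dist_seg_right (h : IsCN M) [CompleteSpace M] (x y y' : M) {t : ℝ} (h0 : 0 ≤ t)
    (h1 : t ≤ 1) : dist (seg h x y t) (seg h x y' t) ≤ t * dist y y' := by
  have e1 := seg_spec h x y' h0 h1 (seg h x y t)
  have e2 := seg_spec h x y h0 h1 y'
  have e3 := dist_left_seg h x y h0 h1
  rw [dist_comm] at e3
  have f3 := pow_le_pow_left₀ dist_nonneg e3 2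
  have g3 := mul_le_mul_of_nonneg_left f3 (show (0 : ℝ) ≤ 1 - t by linarith)
  have g2 := mul_le_mul_of_nonneg_left e2 h0
  rw [dist_comm y' (seg h x y t), dist_comm y' x, dist_comm y' y] at g2
  refine le_of_sq_le_sq ?_ (by positivity)
  nlinarith [e1, g2, g3]

theorem dist_seg_left (h : IsCN M) [CompleteSpace M] (x x' y : M) {t : ℝ} (h0 : 0 ≤ t)
    (h1 : t ≤ 1) : dist (seg h x y t) (seg h x' y t) ≤ (1 - t) * dist x x' := by
  have h2 : (0 : ℝ) ≤ 1 - t := by linarith
  have e1 := seg_spec h x' y h0 h1 (seg h x y t)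
  have e2 := seg_spec h x y h0 h1 x'
  have e3 := dist_right_seg h x y h0 h1
  rw [dist_comm] at e3
  have f3 := pow_le_pow_left₀ dist_nonneg e3 2
  have g3 := mul_le_mul_of_nonneg_left f3 h0
  have g2 := mul_le_mul_of_nonneg_left e2 h2
  rw [dist_comm x' (seg h x y t), dist_comm x' x] at g2
  refine le_of_sq_le_sq ?_ (by positivity)
  nlinarith [e1, g2, g3]

/-- Conical property. -/
theorem dist_seg_le (h : IsCN M) [CompleteSpace M] (x y x' y' : M) {t : ℝ} (h0 : 0 ≤ t)
    (h1 : t ≤ 1) :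
    dist (seg h x y t) (seg h x' y' t) ≤ (1 - t) * dist x x' + t * dist y y' := by
  have := dist_triangle (seg h x y t) (seg h x' y t) (seg h x' y' t)
  have e1 := dist_seg_left h x x' y h0 h1
  have e2 := dist_seg_right h x' y y' h0 h1
  linarith

theorem dist_point_seg_le (h : IsCN M) [CompleteSpace M] (x y z : M) {t : ℝ} (h0 : 0 ≤ t)
    (h1 : t ≤ 1) :
    dist (seg h x y t) z ≤ (1 - t) * dist x z + t * dist y z := by
  have := dist_seg_le h x y z z h0 h1
  rwa [seg_self h z h0 h1] at this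

/-- The quadrilateral inequality. -/
theorem quad (h : IsCN M) [CompleteSpace M] (a b c d : M) :
    dist a d ^ 2 + dist b c ^ 2 - dist a c ^ 2 - dist b d ^ 2 ≤ 2 * dist a b * dist c d := by
  rcases eq_or_ne a b with rfl | hab
  · rw [dist_self]
    linarith
  rcases eq_or_ne c d with rfl | hcd
  · rw [dist_self c]
    linarith
  set A := dist a b with hA
  set B := dist c d with hB
  have hA0 : 0 < A := dist_pos.2 hab
  have hB0 : 0 < B := dist_pos.2 hcd
  have hAB : 0 < A + B := by positivity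
  -- t = A / (A + B), 1 - t = B / (A + B)
  have ht0 : 0 ≤ A / (A + B) := by positivity
  have ht1 : A / (A + B) ≤ 1 := by
    rw [div_le_one hAB]; linarith
  have e1 := seg_spec h b c ht0 ht1 a
  have e2 := seg_spec h b c ht0 ht1 d
  have e3 : dist a d ^ 2 ≤ (dist a (seg h b c (A / (A + B))) +
      dist d (seg h b c (A / (A + B)))) ^ 2 :=
    pow_le_pow_left₀ dist_nonneg (dist_triangle_right a d _) 2
  set X := dist a (seg h b c (A / (A + B)))
  set Y := dist d (seg h b c (A / (A + B)))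
  have e4 : 1 - A / (A + B) = B / (A + B) := by field_simp; ring
  rw [e4, ← hA] at e1
  rw [e4, dist_comm d c, ← hB, dist_comm d b] at e2
  have e5 : (X + Y) ^ 2 ≤ (A + B) / A * X ^ 2 + (A + B) / B * Y ^ 2 := by
    have : (A + B) / A * X ^ 2 + (A + B) / B * Y ^ 2 - (X + Y) ^ 2 =
        (B * X - A * Y) ^ 2 / (A * B) := by
      field_simp
      ring
    have h2 : 0 ≤ (B * X - A * Y) ^ 2 / (A * B) := by positivity
    linarith
  have f1 := mul_le_mul_of_nonneg_left e1 (show (0 : ℝ) ≤ (A + B) / A by positivity)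
  have f2 := mul_le_mul_of_nonneg_left e2 (show (0 : ℝ) ≤ (A + B) / B by positivity)
  have g1 : (A + B) / A * (B / (A + B) * A ^ 2 + A / (A + B) * dist a c ^ 2 -
      A / (A + B) * (B / (A + B)) * dist b c ^ 2) =
      A * B + dist a c ^ 2 - B / (A + B) * dist b c ^ 2 := by
    field_simp
  have g2 : (A + B) / B * (B / (A + B) * dist b d ^ 2 + A / (A + B) * B ^ 2 -
      A / (A + B) * (B / (A + B)) * dist b c ^ 2) =
      dist b d ^ 2 + A * B - A / (A + B) * dist b c ^ 2 := by
    field_simp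
  have g3 : B / (A + B) * dist b c ^ 2 + A / (A + B) * dist b c ^ 2 = dist b c ^ 2 := by
    field_simp
    ring
  rw [g1] at f1
  rw [g2] at f2
  linarith

theorem exists_proj (h : IsCN M) [CompleteSpace M] {C : Set M} (hC : IsClosed C)
    (hne : C.Nonempty) (hmid : ∀ x ∈ C, ∀ y ∈ C, mid h x y ∈ C) (z : M) :
    ∃ p ∈ C, ∀ w ∈ C, dist z p ^ 2 + dist w p ^ 2 ≤ dist z w ^ 2 := by
  obtain ⟨p, hp, hp2⟩ := exists_min h hC hne hmid (F := fun w => dist z w ^ 2) (by fun_prop) 0
    (fun w _ => by positivity) (fun x _ y _ => mid_spec h x y z)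
  exact ⟨p, hp, hp2⟩

theorem dist_proj_le (h : IsCN M) [CompleteSpace M] {C : Set M} {z z' p p' : M}
    (hp : p ∈ C) (hp' : p' ∈ C) (h1 : ∀ w ∈ C, dist z p ^ 2 + dist w p ^ 2 ≤ dist z w ^ 2)
    (h2 : ∀ w ∈ C, dist z' p' ^ 2 + dist w p' ^ 2 ≤ dist z' w ^ 2) :
    dist p p' ≤ dist z z' := by
  have e1 := h1 p' hp'
  have e2 := h2 p hp
  have e3 := quad h p' p z' z
  rw [dist_comm p' z, dist_comm p z', dist_comm p' z', dist_comm p z, dist_comm p' p,
    dist_comm z' z] at e3
  rw [dist_comm p' p] at e1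
  rcases eq_or_lt_of_le (dist_nonneg (x := p) (y := p')) with h0 | h0
  · rw [← h0]; exact dist_nonneg
  · have : dist p p' * dist p p' ≤ dist p p' * dist z z' := by nlinarith
    exact le_of_mul_le_mul_left this h0

end

end Pool.Agent.Helper44.HD
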