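import Pool.Agent.Helper44.HD.Outer
import Pool.Agent.Helper44.HD.Bary
import Pool.Agent.Helper44.HD.CDefs

namespace Pool.Agent.Helper44.HD

open Set Filter Topology
open scoped NNReal ENNReal

universe u

theorem AbsLipRetract.exists_extend {N : Type u} [MetricSpace N] [Nonempty N] {L : ℝ≥0}
    (hN : AbsLipRetract L N) {Z : Type u} [MetricSpace Z] {s : Set Z} {f : Z → N} {K : ℝ≥0}
    (hf : LipschitzOnWith K f s) : ∃ g : Z → N, LipschitzWith (L * K) g ∧ EqOn f g s := by
  obtain ⟨J, hJ, -⟩ := exists_kur (T := N) (fun p q => dist p q) (fun p => dist_self p)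
    (fun p q => dist_comm p q) (fun p q s => dist_triangle p q s) (Classical.arbitrary N)
  obtain ⟨r, hr, hr2⟩ := hN (lp (fun _ : N => ℝ) ∞) J (Isometry.of_dist_eq hJ)
  have hlip : LipschitzOnWith K (fun x => J (f x)) s := by
    refine LipschitzOnWith.of_dist_le_mul fun x hx y hy => ?_
    rw [hJ]
    exact hf.dist_le_mul x hx y hy
  obtain ⟨F, hF, hF2⟩ := hlip.extend_lp_infty
  refine ⟨fun x => r (F x), hr.comp hF, fun x hx => ?_⟩
  have h1 := hF2 hx
  simp only at h1
  change f x = r (F x)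
  rw [← h1, hr2]

theorem DoublingAt.card_le {D : ℕ} {r : ℝ} {Y : Type u} [MetricSpace Y]
    (hD : DoublingAt D r Y) {P : Set Y} (hP : ∀ p ∈ P, ∀ q ∈ P, p ≠ q → r ≤ dist p q)
    (s : Finset P) (hs : ∀ p ∈ s, ∀ q ∈ s, dist (p : Y) q ≤ 6 * r) : s.card ≤ D := by
  have h1 := hD (s.map (Function.Embedding.subtype _)) (by
    intro p hp q hq hpq
    rw [Finset.mem_map] at hp hq
    obtain ⟨p', hp', rfl⟩ := hp
    obtain ⟨q', hq', rfl⟩ := hq
    exact hP _ p'.2 _ q'.2 hpq) (by
    intro p hp q hq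
    rw [Finset.mem_map] at hp hq
    obtain ⟨p', hp', rfl⟩ := hp
    obtain ⟨q', hq', rfl⟩ := hq
    exact hs p' hp' q' hq')
  rwa [Finset.card_map] at h1

section

variable {M : Type u} [MetricSpace M]

/-- Approximate retractions at a scale at which `M` is doubling. -/
theorem exists_small (h : IsCN M) [CompleteSpace M] [Nonempty M] {D : ℕ} {r : ℝ}
    (hr : 0 < r) (hD : DoublingAt D r M) {X : Type*} [MetricSpace X] {ι : M → X}
    (hι : Isometry ι) :
    ∃ g : X → M, (∀ x x' z z', dist x (ι z) ≤ r → dist x' (ι z') ≤ r → dist x x' ≤ r →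
        dist (g x) (g x') ≤ 28 * D * dist x x') ∧
      (∀ x z, dist x (ι z) ≤ r → dist (g x) z ≤ 4 * r) := by
  obtain ⟨P, hP, hP2⟩ := exists_net M r
  obtain ⟨g, hg1, hg2⟩ := exists_pou h (T := P) (fun t => ι t) (fun t => (t : M))
    (ρ := 3 * r) (σ := r) (R := 7 * r) hr D (by
      intro x s hs
      refine hD.card_le hP s fun p hp q hq => ?_
      have h1 := hs p hp
      have h2 := hs q hq
      rw [← hι.dist_eq]
      have h3 := dist_triangle_left (ι p) (ι q) x
      linarith) (by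
      intro t t' htt
      rw [hι.dist_eq] at htt
      linarith)
  have hnet : ∀ x z, dist x (ι z) ≤ r → ∃ t : P, dist x (ι t) ≤ 3 * r - r := by
    intro x z hz
    obtain ⟨p, hp, hp2⟩ := hP2 z
    refine ⟨⟨p, hp⟩, ?_⟩
    have h1 : dist z p ≤ r := by
      rcases hp2 with h1 | h1
      · exact h1.le
      · rw [h1, dist_self]; exact hr.le
    have h2 := dist_triangle x (ι z) (ι p)
    rw [hι.dist_eq] at h2
    change dist x (ι p) ≤ 3 * r - r
    linarith
  refine ⟨g, ?_, ?_⟩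
  · intro x x' z z' hz hz' hxx
    have h1 := hg1 x x' (hnet x z hz) (hnet x' z' hz') hxx
    have h2 : 4 * (D : ℝ) * (7 * r) / r = 28 * D := by
      field_simp
      ring
    rwa [h2] at h1
  · intro x z hz
    rw [dist_comm]
    refine hg2 x (hnet x z hz) z (4 * r) (by positivity) fun t ht => ?_
    rw [← hι.dist_eq]
    have h3 := dist_triangle_left (ι z) (ι t) x
    linarith

theorem absLipRetract_of_coarse (h : IsCN M) [CompleteSpace M] [Nonempty M] {D : ℕ}
    {L : ℝ≥0} (hD : ∀ r : ℝ, 0 < r → r ≤ 1 → DoublingAt D r M) (hL : CoarseLipRetract L M) :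
    AbsLipRetract (8016 * (13 * L + 20) + (L + 28 * D) + 2201) M := by
  classical
  intro X _ ι hι
  obtain ⟨g, hg1, hg2⟩ := hL X ι hι
  have hsm : ∀ k : ℤ, k < -3 → ∃ f : X → M,
      (∀ x x' z z', dist x (ι z) ≤ 5 * (2 : ℝ) ^ k → dist x' (ι z') ≤ 5 * (2 : ℝ) ^ k →
        dist x x' ≤ 5 * (2 : ℝ) ^ k → dist (f x) (f x') ≤ 28 * D * dist x x') ∧
      (∀ x z, dist x (ι z) ≤ 5 * (2 : ℝ) ^ k → dist (f x) z ≤ 4 * (5 * (2 : ℝ) ^ k)) := by
    intro k hk
    have h1 : (2 : ℝ) ^ k ≤ (2 : ℝ) ^ (-4 : ℤ) :=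
      zpow_le_zpow_right₀ (by norm_num) (by omega)
    have h2 : (2 : ℝ) ^ (-4 : ℤ) = 1 / 16 := by norm_num
    rw [h2] at h1
    have h3 : (0 : ℝ) < (2 : ℝ) ^ k := by positivity
    exact exists_small h (by positivity) (hD _ (by positivity) (by linarith)) hι
  choose f hf1 hf2 using hsm
  have hL0 : (0 : ℝ) ≤ L := L.2
  let R : ℤ → X → M := fun k x => if hk : k < -3 then f k hk x else g x
  have hbig : ∀ k : ℤ, ¬ k < -3 → 1 ≤ 8 * (2 : ℝ) ^ k := by
    intro k hk
    have h1 : (2 : ℝ) ^ (-3 : ℤ) ≤ (2 : ℝ) ^ k :=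
      zpow_le_zpow_right₀ (by norm_num) (by omega)
    have h2 : (2 : ℝ) ^ (-3 : ℤ) = 1 / 8 := by norm_num
    rw [h2] at h1
    linarith
  obtain ⟨r, hr1, hr2⟩ := outer_glue h hι R (E := 13 * L + 20) (Q := L + 28 * D)
    (by positivity) (by positivity) (by
      intro x k z hx h1 h2 hz
      have hu : (0 : ℝ) < (2 : ℝ) ^ k := by positivity
      by_cases hk : k < -3
      · simp only [R, dif_pos hk]
        have h3 := hf2 k hk x z (by linarith)
        have h4 : 0 ≤ (L : ℝ) * (2 : ℝ) ^ k := by positivity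
        linarith
      · simp only [R, dif_neg hk]
        have h3 := hg1.dist_le_mul x (ι z)
        have h4 := hg2 z
        have h5 := dist_triangle (g x) (g (ι z)) z
        have h6 := hbig k hk
        have h7 := mul_le_mul_of_nonneg_left (show dist x (ι z) ≤ 5 * (2 : ℝ) ^ k by linarith)
          hL0
        have h8 := mul_le_mul_of_nonneg_left h6 hL0
        linarith) (by
      intro x x' k hx h1 h2 hxx
      have hu : (0 : ℝ) < (2 : ℝ) ^ k := by positivity
      obtain ⟨z, hz⟩ := exists_near ι x hx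
      by_cases hk : k < -3
      · simp only [R, dif_pos hk]
        have h3 : dist x' (ι z) ≤ 5 * (2 : ℝ) ^ k := by
          have := dist_triangle_left x' (ι z) x
          linarith
        have h4 := hf1 k hk x x' z z (by linarith) h3 (by linarith)
        have h5 : 0 ≤ (L : ℝ) * dist x x' := by positivity
        linarith
      · simp only [R, dif_neg hk]
        have h3 := hg1.dist_le_mul x x'
        have h5 : 0 ≤ 28 * (D : ℝ) * dist x x' := by positivity
        linarith)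
  refine ⟨r, LipschitzWith.of_dist_le_mul fun x x' => ?_, hr2⟩
  have hc : ((8016 * (13 * L + 20) + (L + 28 * D) + 2201 : ℝ≥0) : ℝ) =
      8016 * (13 * (L : ℝ) + 20) + ((L : ℝ) + 28 * D) + 2201 := by
    push_cast; ring
  rw [hc]
  exact hr1 x x'

/-- Lipschitz maps close to a coarse Lipschitz map. -/
theorem exists_smooth (h : IsCN M) [CompleteSpace M] [Nonempty M] {N : Type u}
    [MetricSpace N] {D : ℕ} (hD : DoublingAt D 1 N) {A : ℝ≥0} {ψ : N → M}
    (hψ : ∀ u v, dist (ψ u) (ψ v) ≤ A * dist u v + A) :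
    ∃ Ψ : N → M, LipschitzWith (24 * A * D + 12 * A) Ψ ∧ ∀ u, dist (Ψ u) (ψ u) ≤ 3 * A := by
  have hA0 : (0 : ℝ) ≤ A := A.2
  obtain ⟨P, hP, hP2⟩ := exists_net N 1
  obtain ⟨g, hg1, hg2⟩ := exists_pou h (T := P) (fun t => (t : N)) (fun t => ψ t)
    (ρ := 2) (σ := 1) (R := 6 * A) one_pos D (by
      intro x s hs
      refine hD.card_le hP s fun p hp q hq => ?_
      have h1 := hs p hp
      have h2 := hs q hq
      have h3 := dist_triangle_left (p : N) q x
      linarith) (by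
      intro t t' htt
      have h1 := hψ t t'
      have h2 := mul_le_mul_of_nonneg_left (show dist (t : N) t' ≤ 5 by linarith) hA0
      linarith)
  have hnet : ∀ u : N, ∃ t : P, dist u (t : N) ≤ 2 - 1 := by
    intro u
    obtain ⟨p, hp, hp2⟩ := hP2 u
    refine ⟨⟨p, hp⟩, ?_⟩
    change dist u p ≤ 2 - 1
    rcases hp2 with h1 | h1
    · linarith
    · rw [h1, dist_self]; norm_num
  have hdisp : ∀ u, dist (g u) (ψ u) ≤ 3 * A := by
    intro u
    rw [dist_comm]
    refine hg2 u (hnet u) (ψ u) (3 * A) (by positivity) fun t ht => ?_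
    have h1 := hψ u t
    have h2 := mul_le_mul_of_nonneg_left ht.le hA0
    linarith
  refine ⟨g, LipschitzWith.of_dist_le_mul fun u v => ?_, hdisp⟩
  have hc : ((24 * A * D + 12 * A : ℝ≥0) : ℝ) = 24 * (A : ℝ) * D + 12 * A := by
    push_cast; ring
  rw [hc]
  by_cases huv : dist u v ≤ 1
  · have h1 := hg1 u v (hnet u) (hnet v) huv
    have h2 : 4 * (D : ℝ) * (6 * A) / 1 = 24 * A * D := by ring
    rw [h2] at h1
    have h3 : 0 ≤ 12 * (A : ℝ) * dist u v := by positivity
    linarith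
  · push Not at huv
    have h1 := hdisp u
    have h2 := hdisp v
    have h3 := hψ u v
    have h4 := dist_triangle (g u) (ψ u) (g v)
    have h5 := dist_triangle (ψ u) (ψ v) (g v)
    rw [dist_comm (ψ v) (g v)] at h5
    have h6 : 0 ≤ 24 * (A : ℝ) * D * dist u v := by positivity
    have h7 := mul_le_mul_of_nonneg_left huv.le hA0
    linarith

theorem coarseLipRetract_of_retract (h : IsCN M) [CompleteSpace M] [Nonempty M]
    {N : Type u} [MetricSpace N] {D : ℕ} (hD : DoublingAt D 1 N) {L A : ℝ≥0}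
    (hN : AbsLipRetract L N) {φ : M → N} {ψ : N → M}
    (hφ : ∀ x y, dist (φ x) (φ y) ≤ A * dist x y + A)
    (hψ : ∀ u v, dist (ψ u) (ψ v) ≤ A * dist u v + A)
    (hφψ : ∀ x, dist (ψ (φ x)) x ≤ A) :
    CoarseLipRetract ((24 * A * D + 12 * A) * (L * (2 * A)) + 4 * A + 1) M := by
  intro X _ ι hι
  have hne : Nonempty N := ⟨φ (Classical.arbitrary M)⟩
  have hA0 : (0 : ℝ) ≤ A := A.2
  obtain ⟨Ψ, hΨ1, hΨ2⟩ := exists_smooth h hD hψ
  obtain ⟨P, hP, hP2⟩ := exists_net M 1
  have hinv : ∀ z, Function.invFun ι (ι z) = z := Function.leftInverse_invFun hι.injective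
  have hlip : LipschitzOnWith (2 * A) (fun x => φ (Function.invFun ι x)) (ι '' P) := by
    refine LipschitzOnWith.of_dist_le_mul ?_
    rintro _ ⟨p, hp, rfl⟩ _ ⟨q, hq, rfl⟩
    simp only [hinv]
    rw [hι.dist_eq]
    have hc : ((2 * A : ℝ≥0) : ℝ) = 2 * A := by push_cast; ring
    rw [hc]
    rcases eq_or_ne p q with rfl | hpq
    · rw [dist_self, dist_self, mul_zero]
    · have h1 := hφ p q
      have h2 := mul_le_mul_of_nonneg_left (hP p hp q hq hpq) hA0
      linarith
  obtain ⟨Φ, hΦ1, hΦ2⟩ := hN.exists_extend hlip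
  have hcomp := hΨ1.comp hΦ1
  have hΦP : ∀ p ∈ P, Φ (ι p) = φ p := by
    intro p hp
    have h1 := hΦ2 ⟨p, hp, rfl⟩
    simp only [hinv] at h1
    exact h1.symm
  refine ⟨fun x => Ψ (Φ x), ?_, ?_⟩
  · refine hcomp.weaken ?_
    rw [add_assoc]
    exact le_self_add
  · intro z
    obtain ⟨p, hp, hp2⟩ := hP2 z
    have hzp : dist z p ≤ 1 := by
      rcases hp2 with h1 | h1
      · exact h1.le
      · rw [h1, dist_self]; exact zero_le_one
    have h1 := hcomp.dist_le_mul (ι z) (ι p)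
    simp only [Function.comp_apply] at h1
    rw [hι.dist_eq, hΦP p hp] at h1
    have h2 := hΨ2 (φ p)
    have h3 := hφψ p
    have h4 := dist_triangle (Ψ (Φ (ι z))) (Ψ (φ p)) z
    have h5 := dist_triangle (Ψ (φ p)) (ψ (φ p)) z
    have h6 := dist_triangle (ψ (φ p)) p z
    rw [dist_comm p z] at h6
    have h7 : (((24 * A * D + 12 * A) * (L * (2 * A)) : ℝ≥0) : ℝ) * dist z p ≤
        (((24 * A * D + 12 * A) * (L * (2 * A)) : ℝ≥0) : ℝ) * 1 :=
      mul_le_mul_of_nonneg_left hzp (NNReal.coe_nonneg _)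
    have hc : (((24 * A * D + 12 * A) * (L * (2 * A)) + 4 * A + 1 : ℝ≥0) : ℝ) =
        (((24 * A * D + 12 * A) * (L * (2 * A)) : ℝ≥0) : ℝ) + 4 * A + 1 := by
      push_cast; ring
    rw [hc]
    linarith

end

end Pool.Agent.Helper44.HD
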