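import Mathlib

namespace Pool.Agent.Helper44.HD

open Set
open scoped NNReal

universe u

/-- The CN inequality of Bruhat and Tits: any two points have a midpoint `m` satisfying the
semi-parallelogram inequality.  A complete metric space with this property is a complete
`CAT(0)` space. -/
def IsCN (M : Type u) [MetricSpace M] : Prop :=
  ∀ x y : M, ∃ m : M, ∀ z : M,
    dist z m ^ 2 ≤ (dist z x ^ 2 + dist z y ^ 2) / 2 - dist x y ^ 2 / 4

section

variable {M : Type u} [MetricSpace M]

/-- The restriction of `γ` to `[0, ∞)` is a geodesic ray. -/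
def IsRay (γ : ℝ → M) : Prop :=
  ∀ s t : ℝ, 0 ≤ s → 0 ≤ t → dist (γ s) (γ t) = |s - t|

/-- The Busemann function of the ray `γ`: the limit, which is also the infimum, of the
nonincreasing sequence `dist z (γ n) - n`. -/
noncomputable def busemann (γ : ℝ → M) (z : M) : ℝ := ⨅ n : ℕ, (dist z (γ n) - n)

/-- `m` restricts on every level set of `b` to a metric, which is at least the distance of `M`
and at most the induced length metric. -/
structure IsLevelMetric (b : M → ℝ) (m : M → M → ℝ) : Prop where
  self : ∀ p, m p p = 0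
  symm : ∀ p q, b p = b q → m p q = m q p
  triangle : ∀ p q s, b p = b q → b q = b s → m p s ≤ m p q + m q s
  dist_le : ∀ p q, b p = b q → dist p q ≤ m p q
  le_length : ∀ (K : ℝ≥0) (c : ℝ → M), LipschitzOnWith K c (Icc 0 1) →
    (∀ t ∈ Icc (0 : ℝ) 1, b (c t) = b (c 0)) → m (c 0) (c 1) ≤ K

/-- At every scale `τ`, the inclusion into `M` of a level set of `b` with the metric `m`
extends, up to an error `(L + 1) * τ`, to an `L`-Lipschitz map on every metric space which
contains the level set isometrically and lies within distance `τ` of it. -/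
def ApproxExt (L : ℝ≥0) (b : M → ℝ) (m : M → M → ℝ) : Prop :=
  ∀ (β τ : ℝ), 0 < τ → ∀ (Z : Type u) [MetricSpace Z] (ι : M → Z),
    (∀ p q, b p = β → b q = β → dist (ι p) (ι q) = m p q) →
    (∀ x : Z, ∃ p, b p = β ∧ dist x (ι p) ≤ τ) →
    ∃ g : Z → M, LipschitzWith L g ∧ ∀ p, b p = β → dist (g (ι p)) p ≤ (L + 1) * τ

end

end Pool.Agent.Helper44.HD
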