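import Pool.Agent.Helper44.HD.Cat

namespace Pool.Agent.Helper44.HD

open Set Filter Topology

universe u

section

variable {M : Type u} [MetricSpace M]

/-- The piecewise geodesic interpolation of a sequence of points. -/
noncomputable def glue (h : IsCN M) [CompleteSpace M] (A : ℤ → M) (θ : ℝ) : M :=
  seg h (A ⌊θ⌋) (A (⌊θ⌋ + 1)) (Int.fract θ)

theorem glue_ball (h : IsCN M) [CompleteSpace M] (A : ℤ → M) (z : M) {θ E : ℝ}
    (hE : ∀ i : ℤ, |(i : ℝ) - θ| ≤ 1 → dist (A i) z ≤ E) : dist (glue h A θ) z ≤ E := by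
  have f0 := Int.fract_nonneg θ
  have f1 := (Int.fract_lt_one θ).le
  have hf := Int.floor_add_fract θ
  have h1 := hE ⌊θ⌋ (by rw [abs_le]; constructor <;> linarith)
  have h2 := hE (⌊θ⌋ + 1) (by push_cast; rw [abs_le]; constructor <;> linarith)
  have h3 := dist_point_seg_le h (A ⌊θ⌋) (A (⌊θ⌋ + 1)) z f0 f1
  have h4 := mul_le_mul_of_nonneg_left h1 (show (0 : ℝ) ≤ 1 - Int.fract θ by linarith)
  have h5 := mul_le_mul_of_nonneg_left h2 f0
  unfold glue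
  linarith

theorem glue_close (h : IsCN M) [CompleteSpace M] (A A' : ℤ → M) {θ R : ℝ}
    (hR : ∀ i : ℤ, |(i : ℝ) - θ| ≤ 1 → dist (A i) (A' i) ≤ R) :
    dist (glue h A θ) (glue h A' θ) ≤ R := by
  have f0 := Int.fract_nonneg θ
  have f1 := (Int.fract_lt_one θ).le
  have hf := Int.floor_add_fract θ
  have h1 := hR ⌊θ⌋ (by rw [abs_le]; constructor <;> linarith)
  have h2 := hR (⌊θ⌋ + 1) (by push_cast; rw [abs_le]; constructor <;> linarith)
  have h3 := dist_seg_le h (A ⌊θ⌋) (A (⌊θ⌋ + 1)) (A' ⌊θ⌋) (A' (⌊θ⌋ + 1)) f0 f1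
  have h4 := mul_le_mul_of_nonneg_left h1 (show (0 : ℝ) ≤ 1 - Int.fract θ by linarith)
  have h5 := mul_le_mul_of_nonneg_left h2 f0
  unfold glue
  linarith

theorem glue_lip_aux (h : IsCN M) [CompleteSpace M] (A : ℤ → M) {θ θ' D : ℝ} (h1 : θ ≤ θ')
    (h2 : θ' ≤ θ + 1) (hD : dist (A ⌊θ⌋) (A (⌊θ⌋ + 1)) ≤ D)
    (hD' : dist (A ⌊θ'⌋) (A (⌊θ'⌋ + 1)) ≤ D) :
    dist (glue h A θ) (glue h A θ') ≤ D * (θ' - θ) := by
  have f0 := Int.fract_nonneg θ
  have f1 := (Int.fract_lt_one θ).le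
  have hf := Int.floor_add_fract θ
  have f0' := Int.fract_nonneg θ'
  have f1' := (Int.fract_lt_one θ').le
  have hf' := Int.floor_add_fract θ'
  have hle : ⌊θ⌋ ≤ ⌊θ'⌋ := Int.floor_le_floor h1
  have hle2 : ⌊θ'⌋ ≤ ⌊θ⌋ + 1 := by
    have : ⌊θ'⌋ ≤ ⌊θ + 1⌋ := Int.floor_le_floor h2
    rwa [Int.floor_add_one] at this
  rcases eq_or_lt_of_le hle with he | hlt
  · unfold glue
    rw [← he]
    have h3 := dist_seg_seg h (A ⌊θ⌋) (A (⌊θ⌋ + 1)) f0 f1 f0' f1'
    have h4 : |Int.fract θ - Int.fract θ'| = θ' - θ := by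
      rw [← he] at hf'
      rw [abs_of_nonpos (by linarith)]
      linarith
    rw [h4] at h3
    refine h3.trans ?_
    rw [mul_comm]
    exact mul_le_mul_of_nonneg_right hD (by linarith)
  · have he : ⌊θ'⌋ = ⌊θ⌋ + 1 := le_antisymm hle2 hlt
    unfold glue
    rw [he] at hD' hf' ⊢
    have h3 := dist_right_seg h (A ⌊θ⌋) (A (⌊θ⌋ + 1)) f0 f1
    rw [dist_comm] at h3
    have h4 := dist_left_seg h (A (⌊θ⌋ + 1)) (A (⌊θ⌋ + 1 + 1)) f0' f1'
    have h5 := dist_triangle (seg h (A ⌊θ⌋) (A (⌊θ⌋ + 1)) (Int.fract θ)) (A (⌊θ⌋ + 1))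
      (seg h (A (⌊θ⌋ + 1)) (A (⌊θ⌋ + 1 + 1)) (Int.fract θ'))
    have h6 := mul_le_mul_of_nonneg_left hD (show (0 : ℝ) ≤ 1 - Int.fract θ by linarith)
    have h7 := mul_le_mul_of_nonneg_left hD' f0'
    push_cast at hf'
    have h8 : θ' - θ = (1 - Int.fract θ) + Int.fract θ' := by linarith
    rw [h8, mul_add]
    linarith

theorem glue_main (h : IsCN M) [CompleteSpace M] (A A' : ℤ → M) (z : M) {θ θ' E R : ℝ}
    (hθ : |θ - θ'| ≤ 1) (hE : ∀ i : ℤ, |(i : ℝ) - θ| ≤ 2 → dist (A i) z ≤ E)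
    (hR : ∀ i : ℤ, |(i : ℝ) - θ| ≤ 2 → dist (A i) (A' i) ≤ R) :
    dist (glue h A θ) (glue h A' θ') ≤ 2 * E * |θ - θ'| + R := by
  rw [abs_le] at hθ
  have f0 := Int.fract_nonneg θ
  have f1 := (Int.fract_lt_one θ).le
  have hf := Int.floor_add_fract θ
  have f0' := Int.fract_nonneg θ'
  have f1' := (Int.fract_lt_one θ').le
  have hf' := Int.floor_add_fract θ'
  have hd : ∀ i : ℤ, |(i : ℝ) - θ| ≤ 2 → |((i + 1 : ℤ) : ℝ) - θ| ≤ 2 →
      dist (A i) (A (i + 1)) ≤ 2 * E := by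
    intro i h1 h2
    have e1 := hE _ h1
    have e2 := hE _ h2
    have e3 := dist_triangle_right (A i) (A (i + 1)) z
    linarith
  have hd1 := hd ⌊θ⌋ (by rw [abs_le]; constructor <;> linarith)
    (by push_cast; rw [abs_le]; constructor <;> linarith)
  have hd2 := hd ⌊θ'⌋ (by rw [abs_le]; constructor <;> linarith)
    (by push_cast; rw [abs_le]; constructor <;> linarith)
  have h1 : dist (glue h A θ) (glue h A θ') ≤ 2 * E * |θ - θ'| := by
    rcases le_total θ θ' with hl | hl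
    · rw [abs_of_nonpos (by linarith), neg_sub]
      exact glue_lip_aux h A hl (by linarith) hd1 hd2
    · rw [abs_of_nonneg (by linarith), dist_comm]
      exact glue_lip_aux h A hl (by linarith) hd2 hd1
  have h2 : dist (glue h A θ') (glue h A' θ') ≤ R := by
    refine glue_close h A A' fun i hi => hR i ?_
    rw [abs_le] at hi ⊢
    constructor <;> linarith [hi.1, hi.2]
  exact (dist_triangle _ _ _).trans (add_le_add h1 h2)

end

end Pool.Agent.Helper44.HD
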