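import Pool.Agent.Helper44.HD.Bus

namespace Pool.Agent.Helper44.HD

open Set Filter Topology
open scoped NNReal ENNReal

universe u

/-- Kuratowski embedding of a set with an abstract (pseudo)distance function. -/
theorem exists_kur {T : Type u} (m : T → T → ℝ) (h0 : ∀ x, m x x = 0)
    (hs : ∀ x y, m x y = m y x) (ht : ∀ x y z, m x z ≤ m x y + m y z) (q0 : T) :
    ∃ K : T → lp (fun _ : T => ℝ) ∞, (∀ q q', dist (K q) (K q') = m q q') ∧
      ∀ q p, K q p = m p q - m p q0 := by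
  have habs : ∀ p q q', |m p q - m p q'| ≤ m q q' := by
    intro p q q'
    rw [abs_le]
    have h1 := ht p q q'
    have h2 := ht p q' q
    rw [hs q' q] at h2
    constructor <;> linarith
  have hnn : ∀ q q', 0 ≤ m q q' := fun q q' => (abs_nonneg _).trans (habs q q q')
  have hmem : ∀ q, Memℓp (fun p : T => m p q - m p q0) ∞ := by
    intro q
    refine memℓp_infty ⟨m q q0, ?_⟩
    rintro _ ⟨p, rfl⟩
    exact habs p q q0
  refine ⟨fun q => ⟨_, hmem q⟩, ?_, fun q p => rfl⟩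
  intro q q'
  refine le_antisymm ?_ ?_
  · rw [dist_eq_norm]
    refine lp.norm_le_of_forall_le (hnn q q') fun p => ?_
    change |(m p q - m p q0) - (m p q' - m p q0)| ≤ m q q'
    rw [sub_sub_sub_cancel_right]
    exact habs p q q'
  · rw [dist_eq_norm]
    have h1 := lp.norm_apply_le_norm ENNReal.top_ne_zero
      ((⟨_, hmem q⟩ : lp (fun _ : T => ℝ) ∞) - ⟨_, hmem q'⟩) q'
    refine le_trans ?_ h1
    change m q q' ≤ |(m q' q - m q' q0) - (m q' q' - m q' q0)|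
    rw [sub_sub_sub_cancel_right, h0 q', sub_zero, hs q' q]
    exact le_abs_self _

section

variable {M : Type u} [MetricSpace M]

/-- From the extension property of a horosphere at scale `σ` to maps into `M`. -/
theorem exists_nu {L : ℝ≥0} {b : M → ℝ} {m : M → M → ℝ} {β' σ : ℝ} (hσ : 0 < σ) [Nonempty M]
    (h0 : ∀ p, b p = β' → m p p = 0) (hs : ∀ p q, b p = β' → b q = β' → m p q = m q p)
    (ht : ∀ p q s, b p = β' → b q = β' → b s = β' → m p s ≤ m p q + m q s)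
    (hpush : ∀ (Z : Type u) [MetricSpace Z] (ι : M → Z),
      (∀ p q, b p = β' → b q = β' → dist (ι p) (ι q) = m p q) →
      (∀ x : Z, ∃ p, b p = β' ∧ dist x (ι p) ≤ σ) →
      ∃ g : Z → M, LipschitzWith L g ∧ ∀ p, b p = β' → dist (g (ι p)) p ≤ (L + 1) * σ)
    {X : Type u} (U : Set X) (G : X → M → ℝ)
    (hG : ∀ x ∈ U, ∃ q, b q = β' ∧ ∀ p, b p = β' → |G x p - m p q| ≤ σ) :
    ∃ ν : X → M, (∀ x ∈ U, ∀ x' ∈ U, ∀ c, 0 ≤ c →
        (∀ p, b p = β' → |G x p - G x' p| ≤ c) → dist (ν x) (ν x') ≤ L * c) ∧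
      (∀ x ∈ U, ∀ q, b q = β' → (∀ p, b p = β' → |G x p - m p q| ≤ σ) →
        dist (ν x) q ≤ (2 * L + 1) * σ) := by
  classical
  by_cases hne : ∃ q0 : M, b q0 = β'
  swap
  · have hU : ∀ x, x ∉ U := fun x hx => by
      obtain ⟨q, hq, -⟩ := hG x hx
      exact hne ⟨q, hq⟩
    exact ⟨fun _ => Classical.arbitrary M, fun x hx => absurd hx (hU x),
      fun x hx => absurd hx (hU x)⟩
  obtain ⟨q0, hq0⟩ := hne
  let T : Type u := {p : M // b p = β'}
  obtain ⟨K, hK, hK2⟩ := exists_kur (T := T) (fun p q => m p.1 q.1) (fun p => h0 p.1 p.2)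
    (fun p q => hs p.1 q.1 p.2 q.2) (fun p q s => ht p.1 q.1 s.1 p.2 q.2 s.2) ⟨q0, hq0⟩
  let Z : Type u := {f : lp (fun _ : T => ℝ) ∞ // ∃ q : T, dist f (K q) ≤ σ}
  let ι : M → Z := fun p => if hp : b p = β' then ⟨K ⟨p, hp⟩, ⟨p, hp⟩, by
      rw [dist_self]; exact hσ.le⟩ else ⟨K ⟨q0, hq0⟩, ⟨q0, hq0⟩, by rw [dist_self]; exact hσ.le⟩
  have hι : ∀ p (hp : b p = β'), (ι p).1 = K ⟨p, hp⟩ := by
    intro p hp
    simp only [ι, dif_pos hp]
  obtain ⟨g, hg, hg2⟩ := hpush Z ι (by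
    intro p q hp hq
    rw [Subtype.dist_eq, hι p hp, hι q hq]
    exact hK _ _) (by
    intro x
    obtain ⟨q, hq⟩ := x.2
    refine ⟨q.1, q.2, ?_⟩
    rw [Subtype.dist_eq, hι q.1 q.2]
    exact hq)
  have hmem : ∀ x ∈ U, Memℓp (fun p : T => G x p.1 - m p.1 q0) ∞ := by
    intro x hx
    obtain ⟨q, hq, hq2⟩ := hG x hx
    refine memℓp_infty ⟨σ + m q q0, ?_⟩
    rintro _ ⟨p, rfl⟩
    change |G x p.1 - m p.1 q0| ≤ σ + m q q0
    have h1 := hq2 p.1 p.2
    have h2 := ht p.1 q q0 p.2 hq hq0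
    have h3 := ht p.1 q0 q p.2 hq0 hq
    rw [hs q0 q hq0 hq] at h3
    rw [abs_le] at h1 ⊢
    constructor <;> linarith [h1.1, h1.2]
  let V : (x : X) → x ∈ U → lp (fun _ : T => ℝ) ∞ := fun x hx => ⟨_, hmem x hx⟩
  have hVK : ∀ x (hx : x ∈ U) q (hq : b q = β'), (∀ p, b p = β' → |G x p - m p q| ≤ σ) →
      dist (V x hx) (K ⟨q, hq⟩) ≤ σ := by
    intro x hx q hq hq2
    rw [dist_eq_norm]
    refine lp.norm_le_of_forall_le hσ.le fun p => ?_
    have e : (V x hx - K ⟨q, hq⟩) p = (G x p.1 - m p.1 q0) - (m p.1 q - m p.1 q0) := by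
      change (V x hx) p - (K ⟨q, hq⟩) p = _
      rw [hK2]
    rw [e, sub_sub_sub_cancel_right]
    exact hq2 p.1 p.2
  let ν : X → M := fun x => if hx : x ∈ U then g ⟨V x hx, by
    obtain ⟨q, hq, hq2⟩ := hG x hx
    exact ⟨⟨q, hq⟩, hVK x hx q hq hq2⟩⟩ else Classical.arbitrary M
  refine ⟨ν, ?_, ?_⟩
  · intro x hx x' hx' c hc hcc
    simp only [ν, dif_pos hx, dif_pos hx']
    refine (hg.dist_le_mul _ _).trans ?_
    refine mul_le_mul_of_nonneg_left ?_ L.2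
    rw [Subtype.dist_eq, dist_eq_norm]
    refine lp.norm_le_of_forall_le hc fun p => ?_
    change |(G x p.1 - m p.1 q0) - (G x' p.1 - m p.1 q0)| ≤ c
    rw [sub_sub_sub_cancel_right]
    exact hcc p.1 p.2
  · intro x hx q hq hq2
    simp only [ν, dif_pos hx]
    have h1 := hg2 q hq
    have h2 : dist (g ⟨V x hx, by
        obtain ⟨q, hq, hq2⟩ := hG x hx
        exact ⟨⟨q, hq⟩, hVK x hx q hq hq2⟩⟩) (g (ι q)) ≤ L * σ := by
      refine (hg.dist_le_mul _ _).trans ?_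
      refine mul_le_mul_of_nonneg_left ?_ L.2
      rw [Subtype.dist_eq, hι q hq]
      exact hVK x hx q hq hq2
    have h3 := dist_triangle (g ⟨V x hx, by
        obtain ⟨q, hq, hq2⟩ := hG x hx
        exact ⟨⟨q, hq⟩, hVK x hx q hq hq2⟩⟩) (g (ι q)) q
    linarith

end

end Pool.Agent.Helper44.HD
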