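import Pool.Agent.Helper44.HD.Push
import Pool.Agent.Helper44.HD.Glue

namespace Pool.Agent.Helper44.HD

open Set Filter Topology
open scoped NNReal ENNReal

universe u

theorem zpow_bounds {τ : ℝ} (hτ : 0 < τ) {k : ℤ} (hk : |(k : ℝ) - Real.logb 2 τ| ≤ 2) :
    τ / 4 ≤ (2 : ℝ) ^ k ∧ (2 : ℝ) ^ k ≤ 4 * τ := by
  rw [abs_le] at hk
  have e : (2 : ℝ) ^ Real.logb 2 τ = τ := Real.rpow_logb (by norm_num) (by norm_num) hτ
  have e2 : (2 : ℝ) ^ (2 : ℝ) = 4 := by
    rw [show (2 : ℝ) = ((2 : ℕ) : ℝ) by norm_num, Real.rpow_natCast]; norm_num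
  rw [← Real.rpow_intCast]
  constructor
  · have h1 : (2 : ℝ) ^ (Real.logb 2 τ - 2) ≤ (2 : ℝ) ^ (k : ℝ) :=
      Real.rpow_le_rpow_of_exponent_le (by norm_num) (by linarith)
    rwa [Real.rpow_sub (by norm_num), e, e2] at h1
  · have h1 : (2 : ℝ) ^ (k : ℝ) ≤ (2 : ℝ) ^ (Real.logb 2 τ + 2) :=
      Real.rpow_le_rpow_of_exponent_le (by norm_num) (by linarith)
    rw [Real.rpow_add (by norm_num), e, e2] at h1
    linarith

theorem logb_close {τ τ' d : ℝ} (hτ : 0 < τ) (hd : d ≤ τ / 1000) (h1 : |τ - τ'| ≤ d) :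
    |Real.logb 2 τ - Real.logb 2 τ'| ≤ 2 * d / τ := by
  rw [abs_le] at h1
  have hτ' : 999 / 1000 * τ ≤ τ' := by linarith
  have hτ'0 : 0 < τ' := by linarith
  have hl2 : 0 < Real.log 2 := Real.log_pos (by norm_num)
  have hl : 0.6931471803 < Real.log 2 := Real.log_two_gt_d9
  have hd0 : 0 ≤ d := by linarith
  have a1 : Real.log τ - Real.log τ' ≤ d / (999 / 1000 * τ) := by
    rw [← Real.log_div hτ.ne' hτ'0.ne']
    have := Real.log_le_sub_one_of_pos (show 0 < τ / τ' by positivity)
    refine this.trans ?_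
    have e : τ / τ' - 1 = (τ - τ') / τ' := by field_simp
    rw [e]
    exact div_le_div₀ hd0 h1.2 (by positivity) hτ'
  have a2 : Real.log τ' - Real.log τ ≤ d / (999 / 1000 * τ) := by
    rw [← Real.log_div hτ'0.ne' hτ.ne']
    have := Real.log_le_sub_one_of_pos (show 0 < τ' / τ by positivity)
    refine this.trans ?_
    have e : τ' / τ - 1 = (τ' - τ) / τ := by field_simp
    rw [e]
    exact div_le_div₀ hd0 (by linarith) (by positivity) (by linarith)
  have a3 : |Real.log τ - Real.log τ'| ≤ d / (999 / 1000 * τ) := by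
    rw [abs_le]; constructor <;> linarith
  have e : Real.logb 2 τ - Real.logb 2 τ' = (Real.log τ - Real.log τ') / Real.log 2 := by
    unfold Real.logb; ring
  rw [e, abs_div, abs_of_pos hl2, div_le_iff₀ hl2]
  refine a3.trans ?_
  have e2 : d / (999 / 1000 * τ) = (d / τ) * (1000 / 999) := by
    field_simp
  have e3 : 2 * d / τ * Real.log 2 = (d / τ) * (2 * Real.log 2) := by ring
  rw [e2, e3]
  exact mul_le_mul_of_nonneg_left (by linarith) (by positivity)

section

variable {M : Type u} [MetricSpace M]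

theorem exists_retract [CompleteSpace M] [Nonempty M] {h : IsCN M} {b : M → ℝ}
    (H : IsHoro h b) {m : M → M → ℝ} (hm : IsLevelMetric b m) {L : ℝ≥0}
    (hpush : ApproxExt L b m) {X : Type u} [MetricSpace X] {ι : M → X}
    (hι : Isometry ι) :
    ∃ r : X → M, LipschitzWith (7000000 * (L + 1)) r ∧ ∀ z, r (ι z) = z := by
  classical
  -- extension of `b`
  obtain ⟨S, hS, hSι⟩ : ∃ S : X → ℝ, (∀ x y, S x ≤ S y + dist x y) ∧ ∀ z, S (ι z) = b z := by
    have hinv : ∀ z, Function.invFun ι (ι z) = z := Function.leftInverse_invFun hι.injective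
    have h1 : LipschitzOnWith 1 (fun x => b (Function.invFun ι x)) (range ι) := by
      refine LipschitzOnWith.of_le_add ?_
      rintro _ ⟨z, rfl⟩ _ ⟨w, rfl⟩
      simp only [hinv]
      rw [hι.dist_eq]
      exact H.lip z w
    obtain ⟨g, hg, hg2⟩ := h1.extend_real
    refine ⟨g, fun x y => ?_, fun z => ?_⟩
    · have := hg.le_add_mul x y
      rwa [NNReal.coe_one, one_mul] at this
    · rw [← hg2 ⟨z, rfl⟩]
      simp only [hinv]
  set τ : X → ℝ := fun x => Metric.infDist x (range ι) with hτdef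
  have hτnn : ∀ x, 0 ≤ τ x := fun x => Metric.infDist_nonneg
  have hτlip : ∀ x y, τ x ≤ τ y + dist x y := fun x y => Metric.infDist_le_infDist_add_dist
  have hτlip' : ∀ x y, |τ x - τ y| ≤ dist x y := by
    intro x y
    have h1 := hτlip x y
    have h2 := hτlip y x
    rw [dist_comm y x] at h2
    rw [abs_le]
    constructor <;> linarith
  have hclosed : IsClosed (range ι) := hι.isClosedEmbedding.isClosed_range
  have hτpos : ∀ x, x ∉ range ι → 0 < τ x := by
    intro x hx
    exact (hclosed.notMem_iff_infDist_pos (range_nonempty ι)).1 hx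
  have hτzero : ∀ z, τ (ι z) = 0 := fun z => Metric.infDist_zero_of_mem ⟨z, rfl⟩
  have hnear : ∀ x, 0 < τ x → ∃ z, dist x (ι z) ≤ 11 / 10 * τ x := by
    intro x hx
    obtain ⟨_, ⟨z, rfl⟩, hz⟩ := (Metric.infDist_lt_iff (range_nonempty ι)).1
      (show Metric.infDist x (range ι) < 11 / 10 * τ x by
        change τ x < 11 / 10 * τ x; linarith)
    exact ⟨z, hz.le⟩
  have hex := fun (k j : ℤ) => push_scale H hm hpush hι hS hSι ((j : ℝ) * (2 : ℝ) ^ k)
    ((2 : ℝ) ^ k) (by positivity)
  choose ν hν1 hν2 using hex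
  set T : X → ℝ := fun x => S x - 200 * τ x with hT
  let R : ℤ → X → M := fun k x => glue h (fun j => ν k j x) (T x / (2 : ℝ) ^ k)
  have hL0 : (0 : ℝ) ≤ L := L.2
  -- levels
  have hlev : ∀ (x : X) (k j : ℤ), |(j : ℝ) - T x / (2 : ℝ) ^ k| ≤ 2 →
      |(j : ℝ) * (2 : ℝ) ^ k - T x| ≤ 2 * (2 : ℝ) ^ k := by
    intro x k j hj
    have hu : (0 : ℝ) < (2 : ℝ) ^ k := by positivity
    have e : (j : ℝ) * (2 : ℝ) ^ k - T x = ((j : ℝ) - T x / (2 : ℝ) ^ k) * (2 : ℝ) ^ k := by
      field_simp
    rw [e, abs_mul, abs_of_pos hu]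
    exact mul_le_mul_of_nonneg_right hj hu.le
  -- the maps `R k` stay close
  have hνball : ∀ (x : X) (k j : ℤ) (z : M), 0 < τ x → τ x / 4 ≤ (2 : ℝ) ^ k →
      (2 : ℝ) ^ k ≤ 4 * τ x → dist x (ι z) ≤ 5 * (2 : ℝ) ^ k →
      |(j : ℝ) - T x / (2 : ℝ) ^ k| ≤ 2 →
      dist (ν k j x) z ≤ (30 * L + 807) * (2 : ℝ) ^ k := by
    intro x k j z hx h1 h2 hz hj
    have h3 := hlev x k j hj
    rw [abs_le] at h3
    have h4 := hν2 k j x z hz (by simp only [hT] at h3; linarith [h3.2])
    simp only [hT] at h3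
    linarith [h3.1]
  have hRball : ∀ (x : X) (k : ℤ) (z : M), 0 < τ x → τ x / 4 ≤ (2 : ℝ) ^ k →
      (2 : ℝ) ^ k ≤ 4 * τ x → dist x (ι z) ≤ 5 * (2 : ℝ) ^ k →
      dist (R k x) z ≤ (30 * L + 807) * (2 : ℝ) ^ k := by
    intro x k z hx h1 h2 hz
    exact glue_ball h _ z fun j hj => hνball x k j z hx h1 h2 hz (hj.trans (by norm_num))
  have hRlip : ∀ (x x' : X) (k : ℤ) (z : M), 0 < τ x → τ x / 4 ≤ (2 : ℝ) ^ k →
      (2 : ℝ) ^ k ≤ 4 * τ x → dist x (ι z) ≤ 11 / 10 * τ x → dist x x' ≤ τ x / 1000 →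
      dist (R k x) (R k x') ≤ (12063 * L + 324414) * dist x x' := by
    intro x x' k z hx h1 h2 hz hxx
    have hu : (0 : ℝ) < (2 : ℝ) ^ k := by positivity
    have hSS : |S x - S x'| ≤ dist x x' := by
      have e1 := hS x x'
      have e2 := hS x' x
      rw [dist_comm x' x] at e2
      rw [abs_le]
      constructor <;> linarith
    have hττ := hτlip' x x'
    have hTT : |T x - T x'| ≤ 201 * dist x x' := by
      simp only [hT]
      rw [abs_le] at hSS hττ ⊢
      constructor <;> linarith [hSS.1, hSS.2, hττ.1, hττ.2]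
    have hθ : |T x / (2 : ℝ) ^ k - T x' / (2 : ℝ) ^ k| ≤ 201 * dist x x' / (2 : ℝ) ^ k := by
      rw [← sub_div, abs_div, abs_of_pos hu]
      exact div_le_div_of_nonneg_right hTT hu.le
    have hθ1 : 201 * dist x x' / (2 : ℝ) ^ k ≤ 1 := by
      rw [div_le_one hu]; linarith
    have hmain := glue_main h (fun j => ν k j x) (fun j => ν k j x') z
      (θ := T x / (2 : ℝ) ^ k) (θ' := T x' / (2 : ℝ) ^ k)
      (E := (30 * L + 807) * (2 : ℝ) ^ k) (R := 3 * L * dist x x') (hθ.trans hθ1)
      (fun j hj => hνball x k j z hx h1 h2 (by linarith) hj) (by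
        intro j hj
        have h3 := hlev x k j hj
        rw [abs_le] at h3 hSS
        have hz' : dist x' (ι z) ≤ 5 * (2 : ℝ) ^ k := by
          have := dist_triangle_left x' (ι z) x
          linarith
        simp only [hT] at h3
        exact hν1 k j x x' z z (by linarith) hz' (by linarith [h3.2])
          (by linarith [h3.2, hSS.2]) (by linarith))
    refine hmain.trans ?_
    have hE : 0 ≤ 2 * ((30 * (L : ℝ) + 807) * (2 : ℝ) ^ k) := by positivity
    have h5 := mul_le_mul_of_nonneg_left hθ hE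
    have h6 : 2 * ((30 * (L : ℝ) + 807) * (2 : ℝ) ^ k) * (201 * dist x x' / (2 : ℝ) ^ k) =
        402 * (30 * L + 807) * dist x x' := by
      field_simp
      ring
    rw [h6] at h5
    linarith
  let r : X → M := fun x => if hx : x ∈ range ι then hx.choose else
    glue h (fun k => R k x) (Real.logb 2 (τ x))
  have hrι : ∀ z, r (ι z) = z := by
    intro z
    have hz : ι z ∈ range ι := ⟨z, rfl⟩
    simp only [r, dif_pos hz]
    exact hι.injective hz.choose_spec
  have hrout : ∀ x, x ∉ range ι → r x = glue h (fun k => R k x) (Real.logb 2 (τ x)) := by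
    intro x hx
    simp only [r, dif_neg hx]
  have hball : ∀ x, ∃ z, dist x (ι z) ≤ 11 / 10 * τ x ∧
      dist (r x) z ≤ (120 * L + 3228) * τ x := by
    intro x
    by_cases hx : x ∈ range ι
    · obtain ⟨z, rfl⟩ := hx
      refine ⟨z, ?_, ?_⟩
      · rw [dist_self, hτzero, mul_zero]
      · rw [hrι, dist_self, hτzero, mul_zero]
    · have hp := hτpos x hx
      obtain ⟨z, hz⟩ := hnear x hp
      refine ⟨z, hz, ?_⟩
      rw [hrout x hx]
      refine glue_ball h _ z fun k hk => ?_
      obtain ⟨h1, h2⟩ := zpow_bounds hp (hk.trans (by norm_num))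
      have h3 := hRball x k z hp h1 h2 (by linarith)
      have h4 := mul_le_mul_of_nonneg_left h2 (show (0 : ℝ) ≤ 30 * L + 807 by positivity)
      linarith
  have hlocal : ∀ x x', 0 < τ x → dist x x' ≤ τ x / 1000 →
      dist (r x) (r x') ≤ 7000000 * (L + 1) * dist x x' := by
    intro x x' hx hxx
    have hττ := hτlip' x x'
    have hx' : 0 < τ x' := by
      rw [abs_le] at hττ
      linarith [hττ.2]
    have hxo : x ∉ range ι := by
      rintro ⟨z, rfl⟩
      rw [hτzero] at hx
      exact lt_irrefl _ hx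
    have hxo' : x' ∉ range ι := by
      rintro ⟨z, rfl⟩
      rw [hτzero] at hx'
      exact lt_irrefl _ hx'
    obtain ⟨z, hz⟩ := hnear x hx
    have hlog := logb_close hx hxx hττ
    have hlog1 : 2 * dist x x' / τ x ≤ 1 := by
      rw [div_le_one hx]; linarith
    have hmain := glue_main h (fun k => R k x) (fun k => R k x') z
      (θ := Real.logb 2 (τ x)) (θ' := Real.logb 2 (τ x'))
      (E := (120 * L + 3228) * τ x) (R := (12063 * L + 324414) * dist x x')
      (hlog.trans hlog1) (by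
        intro k hk
        obtain ⟨h1, h2⟩ := zpow_bounds hx hk
        have h3 := hRball x k z hx h1 h2 (by linarith)
        have h4 := mul_le_mul_of_nonneg_left h2 (show (0 : ℝ) ≤ 30 * L + 807 by positivity)
        linarith) (by
        intro k hk
        obtain ⟨h1, h2⟩ := zpow_bounds hx hk
        exact hRlip x x' k z hx h1 h2 hz hxx)
    rw [hrout x hxo, hrout x' hxo']
    refine hmain.trans ?_
    have hE : 0 ≤ 2 * ((120 * (L : ℝ) + 3228) * τ x) := by positivity
    have h5 := mul_le_mul_of_nonneg_left hlog hE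
    have h6 : 2 * ((120 * (L : ℝ) + 3228) * τ x) * (2 * dist x x' / τ x) =
        4 * (120 * L + 3228) * dist x x' := by
      field_simp
      ring
    rw [h6] at h5
    have h7 : 0 ≤ (L : ℝ) * dist x x' := by positivity
    have h8 := dist_nonneg (x := x) (y := x')
    linarith
  have hglob : ∀ x x', τ x' ≤ τ x → dist (r x) (r x') ≤ 7000000 * (L + 1) * dist x x' := by
    intro x x' hle
    by_cases hc : 0 < τ x ∧ dist x x' ≤ τ x / 1000
    · exact hlocal x x' hc.1 hc.2
    · have hbig : τ x ≤ 1000 * dist x x' := by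
        rcases eq_or_lt_of_le (hτnn x) with h0 | h0
        · rw [← h0]; positivity
        · have : ¬ dist x x' ≤ τ x / 1000 := fun hh => hc ⟨h0, hh⟩
          push Not at this
          linarith
      obtain ⟨z, hz1, hz2⟩ := hball x
      obtain ⟨z', hz1', hz2'⟩ := hball x'
      have e1 : dist z z' ≤ dist x (ι z) + dist x x' + dist x' (ι z') := by
        rw [← hι.dist_eq]
        have a1 := dist_triangle (ι z) x (ι z')
        have a2 := dist_triangle x x' (ι z')
        rw [dist_comm (ι z) x] at a1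
        linarith
      have e2 : dist (r x) (r x') ≤ dist (r x) z + dist z z' + dist (r x') z' := by
        have a1 := dist_triangle (r x) z (r x')
        have a2 := dist_triangle z z' (r x')
        rw [dist_comm z' (r x')] at a2
        linarith
      have h0 : 0 ≤ 120 * (L : ℝ) + 3228 := by positivity
      have e3 := mul_le_mul_of_nonneg_left hle h0
      have e4 := mul_le_mul_of_nonneg_left hbig h0
      have h7 : 0 ≤ (L : ℝ) * dist x x' := by positivity
      have h8 := dist_nonneg (x := x) (y := x')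
      have h9 := hτnn x'
      nlinarith
  refine ⟨r, LipschitzWith.of_dist_le_mul fun x x' => ?_, hrι⟩
  have hc : ((7000000 * (L + 1) : ℝ≥0) : ℝ) = 7000000 * ((L : ℝ) + 1) := by
    push_cast; ring
  rw [hc]
  rcases le_total (τ x') (τ x) with hle | hle
  · exact hglob x x' hle
  · rw [dist_comm (r x), dist_comm x]
    exact hglob x' x hle

end

end Pool.Agent.Helper44.HD
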