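import Pool.Agent.Helper44.HD.Main

namespace Pool.Agent.Helper44.HD

open Set Filter Topology
open scoped NNReal ENNReal

universe u

section

variable {M : Type u} [MetricSpace M]

theorem exists_near {X : Type*} [MetricSpace X] [Nonempty M] (ι : M → X) (x : X)
    (hx : 0 < Metric.infDist x (range ι)) :
    ∃ z, dist x (ι z) ≤ 11 / 10 * Metric.infDist x (range ι) := by
  obtain ⟨_, ⟨z, rfl⟩, hz⟩ := (Metric.infDist_lt_iff (range_nonempty ι)).1
    (show Metric.infDist x (range ι) < 11 / 10 * Metric.infDist x (range ι) by linarith)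
  exact ⟨z, hz.le⟩

/-- Gluing of approximate retractions of all scales. -/
theorem outer_glue (h : IsCN M) [CompleteSpace M] [Nonempty M] {X : Type*} [MetricSpace X]
    {ι : M → X} (hι : Isometry ι) (R : ℤ → X → M) {E Q : ℝ} (hE0 : 0 ≤ E) (hQ0 : 0 ≤ Q)
    (hRball : ∀ (x : X) (k : ℤ) (z : M), 0 < Metric.infDist x (range ι) →
      Metric.infDist x (range ι) / 4 ≤ (2 : ℝ) ^ k →
      (2 : ℝ) ^ k ≤ 4 * Metric.infDist x (range ι) →
      dist x (ι z) ≤ 11 / 10 * Metric.infDist x (range ι) → dist (R k x) z ≤ E * (2 : ℝ) ^ k)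
    (hRlip : ∀ (x x' : X) (k : ℤ), 0 < Metric.infDist x (range ι) →
      Metric.infDist x (range ι) / 4 ≤ (2 : ℝ) ^ k →
      (2 : ℝ) ^ k ≤ 4 * Metric.infDist x (range ι) →
      dist x x' ≤ Metric.infDist x (range ι) / 1000 →
      dist (R k x) (R k x') ≤ Q * dist x x') :
    ∃ r : X → M, (∀ x x', dist (r x) (r x') ≤ (8016 * E + Q + 2201) * dist x x') ∧
      ∀ z, r (ι z) = z := by
  classical
  set τ : X → ℝ := fun x => Metric.infDist x (range ι) with hτdef
  have hτnn : ∀ x, 0 ≤ τ x := fun x => Metric.infDist_nonneg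
  have hτlip : ∀ x y, τ x ≤ τ y + dist x y := fun x y => Metric.infDist_le_infDist_add_dist
  have hτlip' : ∀ x y, |τ x - τ y| ≤ dist x y := by
    intro x y
    have h1 := hτlip x y
    have h2 := hτlip y x
    rw [dist_comm y x] at h2
    rw [abs_le]
    constructor <;> linarith
  have hclosed : IsClosed (range ι) := hι.isClosedEmbedding.isClosed_range
  have hτpos : ∀ x, x ∉ range ι → 0 < τ x := by
    intro x hx
    exact (hclosed.notMem_iff_infDist_pos (range_nonempty ι)).1 hx
  have hτzero : ∀ z, τ (ι z) = 0 := fun z => Metric.infDist_zero_of_mem ⟨z, rfl⟩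
  have hnear : ∀ x, 0 < τ x → ∃ z, dist x (ι z) ≤ 11 / 10 * τ x :=
    fun x hx => exists_near ι x hx
  let r : X → M := fun x => if hx : x ∈ range ι then hx.choose else
    glue h (fun k => R k x) (Real.logb 2 (τ x))
  have hrι : ∀ z, r (ι z) = z := by
    intro z
    have hz : ι z ∈ range ι := ⟨z, rfl⟩
    simp only [r, dif_pos hz]
    exact hι.injective hz.choose_spec
  have hrout : ∀ x, x ∉ range ι → r x = glue h (fun k => R k x) (Real.logb 2 (τ x)) := by
    intro x hx
    simp only [r, dif_neg hx]
  have hball : ∀ x, ∃ z, dist x (ι z) ≤ 11 / 10 * τ x ∧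
      dist (r x) z ≤ 4 * E * τ x := by
    intro x
    by_cases hx : x ∈ range ι
    · obtain ⟨z, rfl⟩ := hx
      refine ⟨z, ?_, ?_⟩
      · rw [dist_self, hτzero, mul_zero]
      · rw [hrι, dist_self, hτzero, mul_zero]
    · have hp := hτpos x hx
      obtain ⟨z, hz⟩ := hnear x hp
      refine ⟨z, hz, ?_⟩
      rw [hrout x hx]
      refine glue_ball h _ z fun k hk => ?_
      obtain ⟨h1, h2⟩ := zpow_bounds hp (hk.trans (by norm_num))
      have h3 := hRball x k z hp h1 h2 hz
      have h4 := mul_le_mul_of_nonneg_left h2 hE0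
      linarith
  have hlocal : ∀ x x', 0 < τ x → dist x x' ≤ τ x / 1000 →
      dist (r x) (r x') ≤ (8016 * E + Q + 2201) * dist x x' := by
    intro x x' hx hxx
    have hττ := hτlip' x x'
    have hx' : 0 < τ x' := by
      rw [abs_le] at hττ
      linarith [hττ.2]
    have hxo : x ∉ range ι := by
      rintro ⟨z, rfl⟩
      rw [hτzero] at hx
      exact lt_irrefl _ hx
    have hxo' : x' ∉ range ι := by
      rintro ⟨z, rfl⟩
      rw [hτzero] at hx'
      exact lt_irrefl _ hx'
    obtain ⟨z, hz⟩ := hnear x hx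
    have hlog := logb_close hx hxx hττ
    have hlog1 : 2 * dist x x' / τ x ≤ 1 := by
      rw [div_le_one hx]; linarith
    have hmain := glue_main h (fun k => R k x) (fun k => R k x') z
      (θ := Real.logb 2 (τ x)) (θ' := Real.logb 2 (τ x'))
      (E := 4 * E * τ x) (R := Q * dist x x')
      (hlog.trans hlog1) (by
        intro k hk
        obtain ⟨h1, h2⟩ := zpow_bounds hx hk
        have h3 := hRball x k z hx h1 h2 hz
        have h4 := mul_le_mul_of_nonneg_left h2 hE0
        linarith) (by
        intro k hk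
        obtain ⟨h1, h2⟩ := zpow_bounds hx hk
        exact hRlip x x' k hx h1 h2 hxx)
    rw [hrout x hxo, hrout x' hxo']
    refine hmain.trans ?_
    have hE : 0 ≤ 2 * (4 * E * τ x) := by positivity
    have h5 := mul_le_mul_of_nonneg_left hlog hE
    have h6 : 2 * (4 * E * τ x) * (2 * dist x x' / τ x) = 16 * E * dist x x' := by
      field_simp
      ring
    rw [h6] at h5
    have h7 : 0 ≤ E * dist x x' := by positivity
    have h8 := dist_nonneg (x := x) (y := x')
    nlinarith
  have hglob : ∀ x x', τ x' ≤ τ x → dist (r x) (r x') ≤ (8016 * E + Q + 2201) * dist x x' := by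
    intro x x' hle
    by_cases hc : 0 < τ x ∧ dist x x' ≤ τ x / 1000
    · exact hlocal x x' hc.1 hc.2
    · have hbig : τ x ≤ 1000 * dist x x' := by
        rcases eq_or_lt_of_le (hτnn x) with h0 | h0
        · rw [← h0]; positivity
        · have : ¬ dist x x' ≤ τ x / 1000 := fun hh => hc ⟨h0, hh⟩
          push Not at this
          linarith
      obtain ⟨z, hz1, hz2⟩ := hball x
      obtain ⟨z', hz1', hz2'⟩ := hball x'
      have e1 : dist z z' ≤ dist x (ι z) + dist x x' + dist x' (ι z') := by
        rw [← hι.dist_eq]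
        have a1 := dist_triangle (ι z) x (ι z')
        have a2 := dist_triangle x x' (ι z')
        rw [dist_comm (ι z) x] at a1
        linarith
      have e2 : dist (r x) (r x') ≤ dist (r x) z + dist z z' + dist (r x') z' := by
        have a1 := dist_triangle (r x) z (r x')
        have a2 := dist_triangle z z' (r x')
        rw [dist_comm z' (r x')] at a2
        linarith
      have h0 : 0 ≤ 4 * E := by positivity
      have e3 := mul_le_mul_of_nonneg_left hle h0
      have e4 := mul_le_mul_of_nonneg_left hbig h0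
      have h7 : 0 ≤ E * dist x x' := by positivity
      have h7' : 0 ≤ Q * dist x x' := by positivity
      have h8 := dist_nonneg (x := x) (y := x')
      have h9 := hτnn x'
      nlinarith
  refine ⟨r, fun x x' => ?_, hrι⟩
  rcases le_total (τ x') (τ x) with hle | hle
  · exact hglob x x' hle
  · rw [dist_comm (r x), dist_comm x]
    exact hglob x' x hle

end

end Pool.Agent.Helper44.HD
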