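import Pool.Agent.Helper44.HD.Kur

namespace Pool.Agent.Helper44.HD

open Set Filter Topology
open scoped NNReal ENNReal

universe u

section

variable {M : Type u} [MetricSpace M]

theorem push_scale [CompleteSpace M] {h : IsCN M} {b : M → ℝ}
    (H : IsHoro h b) {m : M → M → ℝ} (hm : IsLevelMetric b m) {L : ℝ≥0}
    (hpush : ApproxExt L b m) [Nonempty M] {X : Type u} [MetricSpace X] {ι : M → X}
    (hι : Isometry ι) {S : X → ℝ} (hS : ∀ x y, S x ≤ S y + dist x y)
    (hSι : ∀ z, S (ι z) = b z) (β u : ℝ) (hu : 0 < u) :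
    ∃ ν : X → M,
      (∀ x x' z z', dist x (ι z) ≤ 5 * u → dist x' (ι z') ≤ 5 * u → β + 35 * u ≤ S x →
        β + 35 * u ≤ S x' → dist x x' ≤ u → dist (ν x) (ν x') ≤ 3 * L * dist x x') ∧
      (∀ x z, dist x (ι z) ≤ 5 * u → β + 35 * u ≤ S x →
        dist (ν x) z ≤ (30 * L + 5) * u + S x - β) := by
  set β' : ℝ := β + 15 * u with hβ'
  obtain ⟨P, hP1, hP2, hP3, hP4⟩ := exists_horo_proj H β'
  let Q : X → Set (M × M) := fun x =>
    {w | dist x (ι w.1) ≤ 12 * u ∧ b w.2 = β' ∧ dist w.1 w.2 ≤ b w.1 - β'}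
  let G : X → M → ℝ := fun x p => ⨅ w : Q x, (m p w.1.2 + 3 * dist x (ι w.1.1))
  have hbdd : ∀ x p, b p = β' → BddBelow
      (range fun w : Q x => m p w.1.2 + 3 * dist x (ι w.1.1)) := by
    intro x p hp
    refine ⟨0, ?_⟩
    rintro _ ⟨w, rfl⟩
    have h1 := hm.dist_le p w.1.2 (by rw [hp, w.2.2.1])
    have h2 := dist_nonneg (x := p) (y := w.1.2)
    have h3 := dist_nonneg (x := x) (y := ι w.1.1)
    simp only
    linarith
  -- the base point over `x`
  have hbase : ∀ x z, dist x (ι z) ≤ 5 * u → β + 35 * u ≤ S x →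
      β' + 15 * u ≤ b z ∧ b (P z) = β' ∧ dist z (P z) ≤ b z - β' := by
    intro x z hz hx
    have h1 := hS x (ι z)
    rw [hSι] at h1
    have h2 : β' + 15 * u ≤ b z := by linarith
    have h3 := hP3 z (by linarith)
    have h4 := H.lip z (P z)
    exact ⟨h2, le_antisymm (hP1 z) (by linarith), h3⟩
  have hcurve : ∀ x z, dist x (ι z) ≤ 5 * u → β + 35 * u ≤ S x → ∀ w ∈ Q x,
      m w.2 (P z) ≤ dist x (ι w.1) + 5 * u := by
    intro x z hz hx w hw
    obtain ⟨h1, h2, h3⟩ := hbase x z hz hx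
    obtain ⟨w1, w2, w3⟩ := hw
    have h4 := hS x (ι w.1)
    rw [hSι] at h4
    have h5 : dist w.1 z ≤ dist x (ι w.1) + 5 * u := by
      rw [← hι.dist_eq]
      have := dist_triangle_left (ι w.1) (ι z) x
      linarith
    exact (curve_le H hm.le_length w2 h2 w3 h3 (by linarith)).trans h5
  have hGle : ∀ x p, b p = β' → ∀ w ∈ Q x, G x p ≤ m p w.2 + 3 * dist x (ι w.1) :=
    fun x p hp w hw => ciInf_le (hbdd x p hp) ⟨w, hw⟩
  have hQmem : ∀ x x' z, dist x (ι z) ≤ 5 * u → β + 35 * u ≤ S x → dist x' (ι z) ≤ 12 * u →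
      (z, P z) ∈ Q x' := by
    intro x x' z hz hx hx'
    obtain ⟨h1, h2, h3⟩ := hbase x z hz hx
    exact ⟨hx', h2, h3⟩
  have hclose : ∀ x z, dist x (ι z) ≤ 5 * u → β + 35 * u ≤ S x → ∀ p, b p = β' →
      |G x p - m p (P z)| ≤ 15 * u := by
    intro x z hz hx p hp
    obtain ⟨h1, h2, h3⟩ := hbase x z hz hx
    have hmem : (z, P z) ∈ Q x := hQmem x x z hz hx (by linarith)
    have e1 := hGle x p hp _ hmem
    simp only at e1
    have : Nonempty (Q x) := ⟨⟨_, hmem⟩⟩
    have e2 : m p (P z) - 5 * u ≤ G x p := by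
      refine le_ciInf fun w => ?_
      have c1 := hcurve x z hz hx w.1 w.2
      have c2 := hm.triangle p w.1.2 (P z) (by rw [hp, w.2.2.1]) (by rw [h2, w.2.2.1])
      have c3 := dist_nonneg (x := x) (y := ι w.1.1)
      linarith
    rw [abs_le]
    constructor <;> linarith
  have hlip : ∀ x x' z, dist x (ι z) ≤ 5 * u → β + 35 * u ≤ S x → dist x x' ≤ u →
      ∀ p, b p = β' → G x' p ≤ G x p + 3 * dist x x' := by
    intro x x' z hz hx hxx p hp
    obtain ⟨h1, h2, h3⟩ := hbase x z hz hx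
    have hmem : (z, P z) ∈ Q x := hQmem x x z hz hx (by linarith)
    have : Nonempty (Q x) := ⟨⟨_, hmem⟩⟩
    rw [← sub_le_iff_le_add]
    refine le_ciInf fun w => ?_
    have d1 : dist x' (ι w.1.1) ≤ dist x x' + dist x (ι w.1.1) := by
      rw [dist_comm x x']; exact dist_triangle _ _ _
    by_cases hw : dist x (ι w.1.1) ≤ 11 * u
    · have hmem' : w.1 ∈ Q x' := ⟨by linarith, w.2.2.1, w.2.2.2⟩
      have := hGle x' p hp w.1 hmem'
      linarith
    · push Not at hw
      have d2 : dist x' (ι z) ≤ dist x x' + dist x (ι z) := by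
        rw [dist_comm x x']; exact dist_triangle _ _ _
      have hmem' : (z, P z) ∈ Q x' := hQmem x x' z hz hx (by linarith)
      have e1 := hGle x' p hp _ hmem'
      simp only at e1
      have c1 := hcurve x z hz hx w.1 w.2
      have c2 := hm.triangle p w.1.2 (P z) (by rw [hp, w.2.2.1]) (by rw [h2, w.2.2.1])
      linarith
  obtain ⟨ν, hν1, hν2⟩ := exists_nu (L := L) (b := b) (m := m) (β' := β') (σ := 15 * u)
    (by positivity) (fun p _ => hm.self p) (fun p q hp hq => hm.symm p q (by rw [hp, hq]))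
    (fun p q s hp hq hs => hm.triangle p q s (by rw [hp, hq]) (by rw [hq, hs]))
    (hpush β' (15 * u) (by positivity))
    {x : X | (∃ z, dist x (ι z) ≤ 5 * u) ∧ β + 35 * u ≤ S x} G (by
      rintro x ⟨⟨z, hz⟩, hx⟩
      exact ⟨P z, (hbase x z hz hx).2.1, hclose x z hz hx⟩)
  refine ⟨ν, ?_, ?_⟩
  · intro x x' z z' hz hz' hx hx' hxx
    have := hν1 x ⟨⟨z, hz⟩, hx⟩ x' ⟨⟨z', hz'⟩, hx'⟩ (3 * dist x x') (by positivity) (by
      intro p hp
      have h1 := hlip x x' z hz hx hxx p hp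
      have h2 := hlip x' x z' hz' hx' (by rwa [dist_comm]) p hp
      rw [dist_comm x' x] at h2
      rw [abs_le]
      constructor <;> linarith)
    linarith
  · intro x z hz hx
    obtain ⟨h1, h2, h3⟩ := hbase x z hz hx
    have e1 := hν2 x ⟨⟨z, hz⟩, hx⟩ (P z) h2 (hclose x z hz hx)
    have e2 := hS (ι z) x
    rw [hSι, dist_comm] at e2
    have e3 := dist_triangle (ν x) (P z) z
    rw [dist_comm (P z) z] at e3
    linarith

end

end Pool.Agent.Helper44.HD
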